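import Pool.Agent.TH315.SO.SofD

/-!
# Matrix coefficients over sofic actions

(adapted from `Pool.Agent.TH322.AC.Mat`)
-/

set_option autoImplicit false
open scoped ComplexConjugate InnerProductSpace Topology ENNReal
open MeasureTheory Filter

namespace Pool.Agent.TH315.SO
open Pool.Agent.W611.RO Pool.Agent.TH322.AC

/-- the main theorem on `ℓ²(G × {0,…,d-1})` -/
theorem t_MATS (G Ω : Type) [Group G] [Countable G] [DecidableEq G] [MeasurableSpace Ω]
    [MulAction G Ω] (P : Measure Ω) [IsProbabilityMeasure P] (herg : Erg G P) (hS : SofAct G P)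
    (d : ℕ) [NeZero d] (F : Finset G) (A : G → Ω → Matrix (Fin d) (Fin d) ℂ)
    (hAm : ∀ g k l, Measurable fun ω => A g ω k l)
    (hfin : ∀ g k l, (Set.range fun ω => A g ω k l).Finite)
    (halg : ∀ g ω k l, IsAlgebraic ℚ (A g ω k l)) :
    ∃ T : Ω → (L2 (G × Fin d) →L[ℂ] L2 (G × Fin d)),
      (∀ (ω : Ω) (f : L2 (G × Fin d)) (i : G) (k : Fin d), (T ω f : G × Fin d → ℂ) (i, k)
        = ∑ g ∈ F, ∑ l, A g (i⁻¹ • ω) k l * (f : G × Fin d → ℂ) (i * g, l)) ∧
      ((∃ c : ℂ, ∀ᵐ ω ∂P, T ω = c • 1) ∨ ∀ᵐ ω ∂P, HasHyp (T ω)) := by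
  classical
  let G' : Type := G × Multiplicative (Fin d)
  let F' : Finset G' := F ×ˢ (Finset.univ : Finset (Multiplicative (Fin d)))
  let a : G' → (Ω × Fin d) → ℂ := fun g x =>
    if g ∈ F' then A g.1 x.1 (-x.2) (-x.2 + Multiplicative.toAdd g.2) else 0
  have ham : ∀ g, Measurable (a g) := by
    intro g
    by_cases hg : g ∈ F'
    · have h1 : a g = fun x : Ω × Fin d => A g.1 x.1 (-x.2) (-x.2 + Multiplicative.toAdd g.2) := by
        funext x
        exact if_pos hg
      rw [h1]
      have h2 : Measurable (fun x : Fin d × Ω =>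
          A g.1 x.2 (-x.1) (-x.1 + Multiplicative.toAdd g.2)) :=
        measurable_from_prod_countable_right fun t => hAm g.1 (-t) (-t + Multiplicative.toAdd g.2)
      exact h2.comp measurable_swap
    · have h1 : a g = fun _ => 0 := by
        funext x
        exact if_neg hg
      rw [h1]
      exact measurable_const
  have hfin' : ∀ g, (Set.range (a g)).Finite := by
    intro g
    refine Set.Finite.subset ((Set.finite_iUnion fun t : Fin d =>
      hfin g.1 (-t) (-t + Multiplicative.toAdd g.2)).union (Set.finite_singleton (0 : ℂ))) ?_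
    rintro _ ⟨x, rfl⟩
    by_cases hg : g ∈ F'
    · left
      have h1 : a g x = A g.1 x.1 (-x.2) (-x.2 + Multiplicative.toAdd g.2) := if_pos hg
      rw [h1]
      exact Set.mem_iUnion.2 ⟨x.2, x.1, rfl⟩
    · right
      exact if_neg hg
  have halg' : ∀ g x, IsAlgebraic ℚ (a g x) := by
    intro g x
    by_cases hg : g ∈ F'
    · have h1 : a g x = A g.1 x.1 (-x.2) (-x.2 + Multiplicative.toAdd g.2) := if_pos hg
      rw [h1]
      exact halg _ _ _ _
    · have h1 : a g x = 0 := if_neg hg
      rw [h1]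
      exact isAlgebraic_zero
  -- bounds
  choose B hB using fun g => bdd_of_fin (hfin' g)
  let R : G' → ℝ := fun g => if g ∈ F' then max (B g) 0 else 0
  have hR0 : ∀ g, 0 ≤ R g := by
    intro g
    show 0 ≤ (if g ∈ F' then max (B g) 0 else 0)
    split_ifs
    · exact le_max_right _ _
    · exact le_rfl
  have haR : ∀ g x, ‖a g x‖ ≤ R g := by
    intro g x
    by_cases hg : g ∈ F'
    · have h1 : R g = max (B g) 0 := if_pos hg
      rw [h1]
      exact (hB g x).trans (le_max_left _ _)
    · have h1 : a g x = 0 := if_neg hg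
      rw [h1, norm_zero]
      exact hR0 g
  have hRs : Summable R := summable_of_ne_finset_zero (s := F') fun g hg => if_neg hg
  choose T' hT' using fun x : Ω × Fin d => exists_op Pool.Agent.W515.RO.t_UNI
    (fun (g : G') (i : G') => a g (i⁻¹ • x)) R hR0 hRs (fun g i => haR g _)
  -- the formula for `T'`
  have hT'f : ∀ (x : Ω × Fin d) (f : L2 G') (i : G'), (T' x f : G' → ℂ) i
      = ∑ g ∈ F', a g (i⁻¹ • x) * (f : G' → ℂ) (i * g) := by
    intro x f i
    rw [hT']
    refine tsum_eq_sum fun g hg => ?_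
    have h1 : a g (i⁻¹ • x) = 0 := if_neg hg
    rw [h1, zero_mul]
  have hT'b : ∀ (x : Ω × Fin d) (k : G'), T' x (stb G' k)
      = ∑ g ∈ F', a g ((g * k⁻¹) • x) • stb G' (k * g⁻¹) := by
    intro x k
    apply lp.ext
    funext i
    rw [hT'f]
    have h1 : ((∑ g ∈ F', a g ((g * k⁻¹) • x) • stb G' (k * g⁻¹) : L2 G') : G' → ℂ) i
        = ∑ g ∈ F', a g ((g * k⁻¹) • x) * ((stb G' (k * g⁻¹) : L2 G') : G' → ℂ) i := by
      rw [← crd_apply, map_sum]
      refine Finset.sum_congr rfl fun g _ => ?_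
      rw [map_smul, crd_apply, smul_eq_mul]
    rw [h1]
    refine Finset.sum_congr rfl fun g _ => ?_
    rw [stb_apply, stb_apply]
    by_cases h : i * g = k
    · have h' : i = k * g⁻¹ := by rw [← h, mul_inv_cancel_right]
      have e2 : g * k⁻¹ = i⁻¹ := by rw [h', mul_inv_rev, inv_inv]
      rw [if_pos h', if_pos h, e2]
    · have h' : i ≠ k * g⁻¹ := by
        rintro rfl
        apply h
        rw [inv_mul_cancel_right]
      rw [if_neg h', if_neg h]
      simp
  have hmain := t_ALGS G' (Ω × Fin d) (L2 G') (P.prod (unif d)) (stb G') (erg_d G Ω d P herg)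
    (sof_d G Ω d P hS) F' a ham hfin' halg' T' hT'b
  refine ⟨fun ω => T' (ω, 0), fun ω f i k => ?_, ?_⟩
  · have h1 := hT'f (ω, 0) f (i, Multiplicative.ofAdd k)
    have h2 : (T' (ω, 0) f : G' → ℂ) (i, Multiplicative.ofAdd k)
        = (T' (ω, 0) f : G × Fin d → ℂ) (i, k) := rfl
    refine h2.symm.trans (h1.trans ?_)
    show ∑ g ∈ F ×ˢ (Finset.univ : Finset (Multiplicative (Fin d))), _ = _
    rw [Finset.sum_product]
    refine Finset.sum_congr rfl fun g hg => ?_
    have h3 : ∀ s : Multiplicative (Fin d),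
        a (g, s) (((i, Multiplicative.ofAdd k) : G')⁻¹ • ((ω, 0) : Ω × Fin d))
          * (f : G' → ℂ) (((i, Multiplicative.ofAdd k) : G') * (g, s))
        = A g (i⁻¹ • ω) k (k + Multiplicative.toAdd s)
          * (f : G × Fin d → ℂ) (i * g, k + Multiplicative.toAdd s) := by
      intro s
      have h4 : ((i, Multiplicative.ofAdd k) : G')⁻¹ • ((ω, 0) : Ω × Fin d) = (i⁻¹ • ω, -k) := by
        rw [actd_def]
        simp
      have h5 : a (g, s) (i⁻¹ • ω, -k) = A g (i⁻¹ • ω) k (k + Multiplicative.toAdd s) := by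
        have h6 : a (g, s) (i⁻¹ • ω, -k)
            = A g (i⁻¹ • ω) (- -k) (- -k + Multiplicative.toAdd s) :=
          if_pos (Finset.mem_product.2 ⟨hg, Finset.mem_univ _⟩)
        rw [h6, neg_neg]
      rw [h4, h5]
      rfl
    rw [Finset.sum_congr rfl fun s _ => h3 s]
    exact Fintype.sum_equiv (Multiplicative.toAdd.trans (Equiv.addLeft k)) _ _ fun s => rfl
  · have hae : ∀ {p : Ω × Fin d → Prop}, (∀ᵐ x ∂(P.prod (unif d)), p x) → ∀ᵐ ω ∂P, p (ω, 0) := by
      intro p hp
      have h1 := Measure.ae_ae_of_ae_prod hp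
      filter_upwards [h1] with ω hω
      by_contra hc
      have h2 : unif d {t | ¬ p (ω, t)} = 0 := hω
      have h3 : unif d {(0 : Fin d)} ≤ unif d {t | ¬ p (ω, t)} :=
        measure_mono (by rintro _ rfl; exact hc)
      rw [h2] at h3
      exact unif_pos d 0 (nonpos_iff_eq_zero.1 h3)
    rcases hmain with ⟨c, hc⟩ | h
    · exact Or.inl ⟨c, hae hc⟩
    · exact Or.inr (hae h)


/-- sofic groups -/
def Sofic (G : Type) [Group G] : Prop :=
  ∀ (K : Finset G) (ε : ℝ), 0 < ε → ∃ (n : ℕ) (s : G → Equiv.Perm (Fin n)), 0 < n ∧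
    (∀ g ∈ K, ∀ h ∈ K, (({x | s (g * h) x ≠ s g (s h x)}.ncard : ℕ) : ℝ) ≤ ε * n) ∧
    (∀ g ∈ K, g ≠ 1 → (({x | s g x = x}.ncard : ℕ) : ℝ) ≤ ε * n)

/-- a sofic group acting on a point -/
theorem sof_point (G : Type) [Group G] (hG : Sofic G) :
    SofAct G (Measure.dirac (PUnit.unit : PUnit.{1})) := by
  classical
  intro K 𝒜 ε _ hε
  obtain ⟨n, s, hn, h1, h2⟩ := hG K ε hε
  refine ⟨n, s, fun _ => PUnit.unit, hn, h1, h2, fun g _ A _ => ?_, fun A _ => ?_⟩
  · have h3 : {x : Fin n | ¬ ((PUnit.unit : PUnit.{1}) ∈ A ↔ g • (PUnit.unit : PUnit.{1}) ∈ A)}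
        = ∅ := by
      ext x
      simp only [Set.mem_setOf_eq, Set.mem_empty_iff_false, iff_false, not_not]
    rw [h3, Set.ncard_empty]
    push_cast
    positivity
  · by_cases h : (PUnit.unit : PUnit.{1}) ∈ A
    · have h3 : {x : Fin n | (PUnit.unit : PUnit.{1}) ∈ A} = Set.univ := by
        ext x
        simp [h]
      have h4 : (Measure.dirac (PUnit.unit : PUnit.{1})).real A = 1 := by
        have h5 : A = Set.univ := by
          ext x
          simp only [Set.mem_univ, iff_true]
          exact h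
        rw [h5, probReal_univ]
      rw [h3, h4, Set.ncard_univ, Nat.card_eq_fintype_card, Fintype.card_fin, mul_one, sub_self,
        abs_zero]
      positivity
    · have h3 : {x : Fin n | (PUnit.unit : PUnit.{1}) ∈ A} = ∅ := by
        ext x
        simp [h]
      have h4 : (Measure.dirac (PUnit.unit : PUnit.{1})).real A = 0 := by
        have h5 : A = ∅ := by
          ext x
          simp only [Set.mem_empty_iff_false, iff_false]
          exact h
        rw [h5, measureReal_empty]
      rw [h3, h4, Set.ncard_empty]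
      have h6 : 0 ≤ ε * (n : ℝ) := by positivity
      simpa using h6

theorem erg_point (G : Type) [Group G] : Erg G (Measure.dirac (PUnit.unit : PUnit.{1})) := by
  refine ⟨fun g => ?_, fun B _ _ => ?_⟩
  · have : (fun ω : PUnit.{1} => g • ω) = id := by
      funext ω
      rfl
    rw [this]
    exact MeasurePreserving.id _
  · by_cases h : (PUnit.unit : PUnit.{1}) ∈ B
    · right
      have h5 : Bᶜ = ∅ := by
        ext x
        simp only [Set.mem_compl_iff, Set.mem_empty_iff_false, iff_false, not_not]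
        exact h
      rw [h5, measure_empty]
    · left
      have h5 : B = ∅ := by
        ext x
        simp only [Set.mem_empty_iff_false, iff_false]
        exact h
      rw [h5, measure_empty]

/-- deterministic operators over a sofic group -/
theorem t_DET (G : Type) [Group G] [Countable G] [DecidableEq G] (hG : Sofic G)
    (d : ℕ) [NeZero d] (F : Finset G) (A : G → Matrix (Fin d) (Fin d) ℂ)
    (halg : ∀ g k l, IsAlgebraic ℚ (A g k l)) :
    ∃ T : L2 (G × Fin d) →L[ℂ] L2 (G × Fin d),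
      (∀ (f : L2 (G × Fin d)) (i : G) (k : Fin d), (T f : G × Fin d → ℂ) (i, k)
        = ∑ g ∈ F, ∑ l, A g k l * (f : G × Fin d → ℂ) (i * g, l)) ∧
      ((∃ c : ℂ, T = c • 1) ∨ HasHyp T) := by
  obtain ⟨T, h1, h2⟩ := t_MATS G PUnit.{1} (Measure.dirac PUnit.unit) (erg_point G)
    (sof_point G hG) d F (fun g _ => A g) (fun g k l => measurable_const)
    (fun g k l => (Set.finite_singleton (A g k l)).subset (by rintro _ ⟨_, rfl⟩; rfl))
    (fun g _ k l => halg g k l)
  refine ⟨T PUnit.unit, fun f i k => h1 PUnit.unit f i k, ?_⟩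
  rcases h2 with ⟨c, hc⟩ | h
  · left
    refine ⟨c, ?_⟩
    rw [ae_dirac_iff (by trivial)] at hc
    exact hc
  · right
    rw [ae_dirac_iff (by trivial)] at h
    exact h

end Pool.Agent.TH315.SO
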