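import Pool.Agent.TH315.SO.Comb
import Pool.Agent.TH322.AC.Asm

/-!
# Random operators with algebraic coefficients over sofic actions

(adapted from `Pool.Agent.TH322.AC.Asm`)
-/

set_option autoImplicit false
open scoped ComplexConjugate InnerProductSpace Topology BoundedContinuousFunction
open MeasureTheory Filter

namespace Pool.Agent.TH315.SO
open Pool.Agent.H712R5.BO Pool.Agent.W611.RO Pool.Agent.TH322.AC

/-- the main theorem, in terms of a Hilbert basis -/
theorem t_ALGS (G Ω H : Type) [Group G] [Countable G] [DecidableEq G] [MeasurableSpace Ω]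
    [MulAction G Ω] [NormedAddCommGroup H] [InnerProductSpace ℂ H] [CompleteSpace H]
    (P : Measure Ω) [IsProbabilityMeasure P] (b : HilbertBasis G ℂ H) (herg : Erg G P)
    (hSof : SofAct G P) (F : Finset G) (a : G → Ω → ℂ) (ham : ∀ g, Measurable (a g))
    (hfin : ∀ g, (Set.range (a g)).Finite) (halg : ∀ g ω, IsAlgebraic ℚ (a g ω))
    (T : Ω → (H →L[ℂ] H))
    (hT : ∀ (ω : Ω) (k : G), T ω (b k) = ∑ g ∈ F, a g ((g * k⁻¹) • ω) • b (k * g⁻¹)) :
    (∃ c : ℂ, ∀ᵐ ω ∂P, T ω = c • 1) ∨ ∀ᵐ ω ∂P, HasHyp (T ω) := by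
  classical
  -- number theory
  set S : Set ℂ := ⋃ g ∈ F, Set.range (a g) with hS
  have hSfin : S.Finite := F.finite_toSet.biUnion fun g _ => hfin g
  have hSalg : ∀ z ∈ S, IsAlgebraic ℚ z := by
    intro z hz
    rw [hS] at hz
    simp only [Set.mem_iUnion, Set.mem_range, exists_prop] at hz
    obtain ⟨g, -, ω, rfl⟩ := hz
    exact halg g ω
  obtain ⟨R, _, ι, _, _, σ, w, v₀, D, e, hD, hinj, hN, hw, he, hlift⟩ := nt_dat S hSfin hSalg
  have hlift' : ∀ z : ℂ, ∃ m : R, z ∈ S → σ v₀ m = D * z := by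
    intro z
    by_cases hz : z ∈ S
    · obtain ⟨m, hm⟩ := hlift z hz
      exact ⟨m, fun _ => hm⟩
    · exact ⟨0, fun h => absurd h hz⟩
  choose ℓ hℓ using hlift'
  have hℓa : ∀ g ∈ F, ∀ ω, σ v₀ (ℓ (a g ω)) = D * a g ω := fun g hg ω =>
    hℓ _ (Set.mem_biUnion hg ⟨ω, rfl⟩)
  -- the left regular representation
  have hUNI : P_UNI := Pool.Agent.W515.RO.t_UNI
  have hL' : ∀ h : G, ∃ U : unitary (H →L[ℂ] H), ∀ k, (U : H →L[ℂ] H) (b k) = b (h * k) := by
    intro h
    obtain ⟨U, hU⟩ := (hUNI G H b (Equiv.mulLeft h) (fun _ => 1)).1 (by simp)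
    refine ⟨U, fun k => ?_⟩
    rw [hU k, one_smul]
    rfl
  choose L hLk using hL'
  have hL : Reg b L := hLk
  -- the fields
  have hXex : ∀ (v : ι) (g : G), ∃ X : CF (Ω := Ω) b L,
      IsW b g (fun ω => σ v (ℓ (a g ω))) (fun ω => ev b L ω X) := by
    intro v g
    have hm : Measurable fun ω => σ v (ℓ (a g ω)) :=
      meas_of_fin (ham g) (hfin g) (fun z => σ v (ℓ z))
    have hfin2 : (Set.range fun ω => σ v (ℓ (a g ω))).Finite := by
      have : (Set.range fun ω => σ v (ℓ (a g ω))) = (fun z => σ v (ℓ z)) '' Set.range (a g) := by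
        rw [← Set.range_comp]
        rfl
      rw [this]
      exact (hfin g).image _
    obtain ⟨B, hB⟩ := bdd_of_fin hfin2
    exact Pool.Agent.W721.RO.t_WRD hUNI G Ω H b L hL (fun h => (herg.mp h).measurable) g
      (fun ω => σ v (ℓ (a g ω))) B hm hB
  choose X hX using hXex
  set Tv : ι → CF (Ω := Ω) b L := fun v => ∑ g ∈ F, X v g with hTv
  have hTvb : ∀ (v : ι) (ω : Ω) (k : G), ev b L ω (Tv v) (b k)
      = ∑ g ∈ F, σ v (ℓ (a g ((g * k⁻¹) • ω))) • b (k * g⁻¹) := by
    intro v ω k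
    rw [hTv]
    show ev b L ω (∑ g ∈ F, X v g) (b k) = _
    rw [map_sum, _root_.sum_apply]
    exact Finset.sum_congr rfl fun g _ => hX v g ω k
  have hTv0 : ∀ ω, ev b L ω (Tv v₀) = (D : ℂ) • T ω := by
    intro ω
    refine Pool.Agent.W253.RO.clm_ext b _ _ fun k => ?_
    rw [hTvb, _root_.smul_apply, hT, Finset.smul_sum]
    refine Finset.sum_congr rfl fun g hg => ?_
    rw [hℓa g hg, mul_smul]
  set B : ℝ := ∑ v, ‖Tv v‖ with hBdef
  have hBv : ∀ v, ‖Tv v‖ ≤ B := fun v =>
    Finset.single_le_sum (f := fun v => ‖Tv v‖) (fun v _ => norm_nonneg _) (Finset.mem_univ v)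
  have hB0 : 0 ≤ B := Finset.sum_nonneg fun v _ => norm_nonneg _
  obtain ⟨q, p, hq, hsmall⟩ := approx σ w v₀ hN hw rfl e he (tau P b L (Tv v₀)) B hB0
  set Y : ι → CF (Ω := Ω) b L := fun v => (q : ℂ) • Tv v - σ v p • (1 : CF (Ω := Ω) b L) with hY
  have hτ : TrSt (tau P b L) := t_TR G Ω H P b L hL herg.mp
  have hY0 : ∀ ω, ev b L ω (Y v₀) = ((q : ℂ) * D) • T ω - σ v₀ p • (1 : H →L[ℂ] H) := by
    intro ω
    rw [hY]
    show ev b L ω ((q : ℂ) • Tv v₀ - σ v₀ p • (1 : CF (Ω := Ω) b L)) = _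
    rw [map_sub, map_smul, map_smul, map_one, hTv0, smul_smul]
  have hYn : ∀ v, ‖Y v‖ ≤ |(q : ℝ)| * B + ‖σ v p‖ := by
    intro v
    rw [hY]
    refine (norm_sub_le _ _).trans (add_le_add ?_ ?_)
    · rw [norm_smul, Complex.norm_intCast]
      exact mul_le_mul_of_nonneg_left (hBv v) (abs_nonneg _)
    · have h1 : ‖(1 : CF (Ω := Ω) b L)‖ ≤ 1 := by
        rcases subsingleton_or_nontrivial (CF (Ω := Ω) b L) with hs | hs
        · rw [Subsingleton.elim (1 : CF (Ω := Ω) b L) 0, norm_zero]; exact zero_le_one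
        · rw [CStarRing.norm_one]
      rw [norm_smul]
      exact mul_le_of_le_one_right (norm_nonneg _) h1
  have hτY : tau P b L (Y v₀) = (q : ℂ) * tau P b L (Tv v₀) - σ v₀ p := by
    rw [hY]
    show tau P b L ((q : ℂ) • Tv v₀ - σ v₀ p • (1 : CF (Ω := Ω) b L)) = _
    rw [map_sub, map_smul, map_smul, hτ.one, smul_eq_mul, smul_eq_mul, mul_one]
  -- integrality
  have hTc : ∀ (v : ι) (ω : Ω) (i j : G), ⟪b i, ev b L ω (Tv v) (b j)⟫_ℂ
      = σ v (∑ g ∈ F, if i = j * g⁻¹ then ℓ (a g ((g * j⁻¹) • ω)) else 0) := by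
    intro v ω i j
    rw [hTvb, inner_sum, map_sum]
    refine Finset.sum_congr rfl fun g _ => ?_
    rw [inner_smul_right, orthonormal_iff_ite.1 b.orthonormal i (j * g⁻¹)]
    split_ifs
    · rw [mul_one]
    · rw [mul_zero, map_zero]
  have hYc : ∀ (v : ι) (ω : Ω) (i j : G), ⟪b i, ev b L ω (Y v) (b j)⟫_ℂ
      = σ v (q • (∑ g ∈ F, if i = j * g⁻¹ then ℓ (a g ((g * j⁻¹) • ω)) else 0)
        - if i = j then p else 0) := by
    intro v ω i j
    rw [hY]
    show ⟪b i, ev b L ω ((q : ℂ) • Tv v - σ v p • (1 : CF (Ω := Ω) b L)) (b j)⟫_ℂ = _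
    rw [map_sub, map_smul, map_smul, map_one, _root_.sub_apply, _root_.smul_apply,
      _root_.smul_apply, inner_sub_right, inner_smul_right, inner_smul_right, hTc, map_sub,
      map_zsmul, zsmul_eq_mul]
    congr 1
    show σ v p * ⟪b i, b j⟫_ℂ = _
    rw [orthonormal_iff_ite.1 b.orthonormal i j]
    split_ifs
    · rw [mul_one]
    · rw [mul_zero, map_zero]
  have hYloc : LocF b L σ Y (F ∪ {1}) (fun g ω => q • (if g ∈ F then ℓ (a g ω) else 0)
      - if g = 1 then p else 0) := by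
    refine ⟨fun v ω g => ?_, fun g hg ω => ?_, fun g => ?_⟩
    · rw [hYc]
      congr 2
      · congr 1
        by_cases hg : g ∈ F
        · rw [if_pos hg, Finset.sum_eq_single g]
          · rw [if_pos (by group), mul_inv_cancel, one_smul]
          · intro g' _ hg'
            rw [if_neg]
            intro h
            exact hg' (mul_inv_eq_one.1 h.symm).symm
          · intro h
            exact absurd hg h
        · rw [if_neg hg]
          refine Finset.sum_eq_zero fun g' hg' => ?_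
          rw [if_neg]
          intro h
          rw [mul_inv_eq_one.1 h.symm] at hg
          exact hg hg'
      · by_cases hg : g = 1
        · rw [if_pos hg, if_pos hg.symm]
        · rw [if_neg hg, if_neg (Ne.symm hg)]
    · rw [if_neg fun h => hg (Finset.mem_union_left _ h), if_neg fun h => hg
        (Finset.mem_union_right _ (Finset.mem_singleton.2 h)), smul_zero, sub_zero]
    · have h1 : FV (a g) := ⟨hfin g, fun c => ham g (measurableSet_singleton c)⟩
      exact h1.map fun z => q • (if g ∈ F then ℓ z else 0) - if g = 1 then p else 0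
  have hsm : ‖tau P b L (Y v₀)‖ ^ (w v₀) * ∏ v ∈ Finset.univ.erase v₀, (1 + ‖Y v‖) ^ (w v) < 1 := by
    rw [hw, hτY]
    refine lt_of_le_of_lt (mul_le_mul_of_nonneg_left ?_ (by positivity)) hsmall
    refine Finset.prod_le_prod (fun v _ => by positivity) fun v _ => ?_
    refine pow_le_pow_left₀ (by positivity) ?_ _
    linarith [hYn v]
  have hqD : (q : ℂ) * D ≠ 0 := mul_ne_zero (by exact_mod_cast hq) (by exact_mod_cast hD)
  rcases main_sof P hSof b L hL herg σ w hinj hN v₀ (by omega) Y hYloc hsm with h | h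
  · right
    filter_upwards [h] with ω hω
    rw [hY0] at hω
    exact hasHyp_affine _ _ _ hω
  · left
    refine ⟨((q : ℂ) * D)⁻¹ * σ v₀ p, ?_⟩
    filter_upwards [h] with ω hω
    rw [hY0, sub_eq_zero] at hω
    rw [mul_smul, ← hω, smul_smul, inv_mul_cancel₀ hqD, one_smul]

end Pool.Agent.TH315.SO
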