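import Pool.Agent.TH315.SO.Mod

/-!
# Comparison of the finite model with the operator near a good vertex
-/

set_option autoImplicit false
open scoped ComplexConjugate InnerProductSpace Topology BoundedContinuousFunction Pointwise Matrix
open MeasureTheory Filter Matrix

namespace Pool.Agent.TH315.SO
open Pool.Agent.H712R5.BO Pool.Agent.W611.RO Pool.Agent.TH322.AC

section
variable {G Ω H : Type} [Group G] [DecidableEq G] [MulAction G Ω]
  [NormedAddCommGroup H] [InnerProductSpace ℂ H] [CompleteSpace H] (b : HilbertBasis G ℂ H)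

/-- the vertex `x` of the model is good for the ball `B` -/
structure Good {R : Type} {n : ℕ} (s : G → Equiv.Perm (Fin n)) (θ : Fin n → Ω) (B U : Finset G)
    (m : G → Ω → R) (x : Fin n) : Prop where
  mult : ∀ g ∈ B, ∀ h ∈ B, s (g * h) x = s g (s h x)
  free : ∀ g ∈ B, g ≠ 1 → s g x ≠ x
  equi : ∀ h ∈ B, ∀ g ∈ U, m g (θ (s h x)) = m g (h • θ x)

omit [DecidableEq G] in
theorem Good.one {R : Type} {n : ℕ} {s : G → Equiv.Perm (Fin n)} {θ : Fin n → Ω} {B U : Finset G}
    {m : G → Ω → R} {x : Fin n} (h : Good s θ B U m x) (hB : (1 : G) ∈ B) : s 1 x = x := by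
  have h1 := h.mult 1 hB 1 hB
  rw [one_mul] at h1
  exact ((s 1).injective h1).symm

omit [DecidableEq G] in
theorem Good.map {R R' : Type} {n : ℕ} {s : G → Equiv.Perm (Fin n)} {θ : Fin n → Ω} {B U : Finset G}
    {m : G → Ω → R} {x : Fin n} (h : Good s θ B U m x) (f : R → R') :
    Good s θ B U (fun g ω => f (m g ω)) x :=
  ⟨h.mult, h.free, fun k hk g hg => by
    show f _ = f _
    rw [h.equi k hk g hg]⟩

/-- the vector of a finitely supported function -/
noncomputable def hh : (G →₀ ℂ) →ₗ[ℂ] H := Finsupp.linearCombination ℂ fun i => b i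

/-- its image in the model, at the vertex `x` -/
noncomputable def ee {n : ℕ} (s : G → Equiv.Perm (Fin n)) (x : Fin n) :
    (G →₀ ℂ) →ₗ[ℂ] (Fin n → ℂ) :=
  Finsupp.linearCombination ℂ fun i => Pi.single (s i⁻¹ x) 1

/-- the action of the operator -/
noncomputable def TT (U : Finset G) (a : G → Ω → ℂ) (ω : Ω) : (G →₀ ℂ) →ₗ[ℂ] (G →₀ ℂ) :=
  Finsupp.linearCombination ℂ fun i => ∑ g ∈ U, Finsupp.single (i * g⁻¹) (a g ((g * i⁻¹) • ω))

/-- the action of its adjoint -/
noncomputable def SS (U : Finset G) (a : G → Ω → ℂ) (ω : Ω) : (G →₀ ℂ) →ₗ[ℂ] (G →₀ ℂ) :=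
  Finsupp.linearCombination ℂ fun i => ∑ g ∈ U, Finsupp.single (i * g) (conj (a g (i⁻¹ • ω)))

/-- supports -/
def Sp (c : G →₀ ℂ) (W : Set G) : Prop := ∀ i, i ∉ W → c i = 0

omit [DecidableEq G] in
theorem Sp.TT {U : Finset G} (hU : ∀ u ∈ U, u⁻¹ ∈ U) {a : G → Ω → ℂ} {ω : Ω} {c : G →₀ ℂ}
    {W : Set G} (hc : Sp c W) : Sp (TT U a ω c) (W * (U : Set G)) := by
  classical
  intro k hk
  rw [Pool.Agent.TH315.SO.TT, Finsupp.linearCombination_apply, Finsupp.sum_apply, Finsupp.sum]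
  refine Finset.sum_eq_zero fun i hi => ?_
  rw [Finsupp.smul_apply, Finsupp.finsetSum_apply, Finset.sum_eq_zero, smul_zero]
  intro g hg
  rw [Finsupp.single_apply, if_neg]
  rintro rfl
  apply hk
  refine Set.mem_mul.2 ⟨i, ?_, g⁻¹, hU g hg, rfl⟩
  by_contra h
  exact (Finsupp.mem_support_iff.1 hi) (hc i h)

omit [DecidableEq G] in
theorem Sp.SS {U : Finset G} {a : G → Ω → ℂ} {ω : Ω} {c : G →₀ ℂ}
    {W : Set G} (hc : Sp c W) : Sp (SS U a ω c) (W * (U : Set G)) := by
  classical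
  intro k hk
  rw [Pool.Agent.TH315.SO.SS, Finsupp.linearCombination_apply, Finsupp.sum_apply, Finsupp.sum]
  refine Finset.sum_eq_zero fun i hi => ?_
  rw [Finsupp.smul_apply, Finsupp.finsetSum_apply, Finset.sum_eq_zero, smul_zero]
  intro g hg
  rw [Finsupp.single_apply, if_neg]
  rintro rfl
  apply hk
  refine Set.mem_mul.2 ⟨i, ?_, g, hg, rfl⟩
  by_contra h
  exact (Finsupp.mem_support_iff.1 hi) (hc i h)

/-- operators with local coefficients -/
structure Loc (T : H →L[ℂ] H) (U : Finset G) (a : G → Ω → ℂ) (ω : Ω) : Prop where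
  coef : ∀ i j, ⟪b i, T (b j)⟫_ℂ = a (i⁻¹ * j) (i⁻¹ • ω)
  zero : ∀ g, g ∉ U → ∀ ω, a g ω = 0

omit [CompleteSpace H] in
theorem Loc.T_h {T : H →L[ℂ] H} {U : Finset G} {a : G → Ω → ℂ} {ω : Ω} (h : Loc b T U a ω)
    (c : G →₀ ℂ) : T (hh b c) = hh b (TT U a ω c) := by
  have h1 : (T : H →ₗ[ℂ] H) ∘ₗ hh b = hh b ∘ₗ TT U a ω := by
    refine Finsupp.lhom_ext' fun i => LinearMap.ext_ring ?_
    show T (hh b (Finsupp.single i 1)) = hh b (TT U a ω (Finsupp.single i 1))
    rw [hh, TT, Finsupp.linearCombination_single, one_smul, Finsupp.linearCombination_single,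
      one_smul, map_sum]
    refine ext_inner b fun k => ?_
    rw [h.coef, inner_sum]
    simp_rw [Finsupp.linearCombination_single, inner_smul_right,
      orthonormal_iff_ite.1 b.orthonormal]
    by_cases hk : k⁻¹ * i ∈ U
    · rw [Finset.sum_eq_single (k⁻¹ * i)]
      · have e1 : k = i * (k⁻¹ * i)⁻¹ := by group
        rw [if_pos e1, mul_one]
        congr 2
        group
      · intro g _ hg
        rw [if_neg, mul_zero]
        rintro rfl
        apply hg
        group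
      · intro h2
        exact absurd hk h2
    · rw [h.zero _ hk, Finset.sum_eq_zero]
      intro g hg
      rw [if_neg, mul_zero]
      rintro rfl
      apply hk
      have e1 : (i * g⁻¹)⁻¹ * i = g := by group
      rwa [e1]
  exact congrArg (fun f : (G →₀ ℂ) →ₗ[ℂ] H => f c) h1

theorem Loc.S_h {T : H →L[ℂ] H} {U : Finset G} {a : G → Ω → ℂ} {ω : Ω} (h : Loc b T U a ω)
    (c : G →₀ ℂ) : (star T) (hh b c) = hh b (SS U a ω c) := by
  have h1 : ((star T : H →L[ℂ] H) : H →ₗ[ℂ] H) ∘ₗ hh b = hh b ∘ₗ SS U a ω := by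
    refine Finsupp.lhom_ext' fun i => LinearMap.ext_ring ?_
    show (star T) (hh b (Finsupp.single i 1)) = hh b (SS U a ω (Finsupp.single i 1))
    rw [hh, SS, Finsupp.linearCombination_single, one_smul, Finsupp.linearCombination_single,
      one_smul, map_sum]
    refine ext_inner b fun k => ?_
    rw [ContinuousLinearMap.star_eq_adjoint, ContinuousLinearMap.adjoint_inner_right,
      ← inner_conj_symm, h.coef, inner_sum]
    simp_rw [Finsupp.linearCombination_single, inner_smul_right,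
      orthonormal_iff_ite.1 b.orthonormal]
    by_cases hk : i⁻¹ * k ∈ U
    · rw [Finset.sum_eq_single (i⁻¹ * k)]
      · have e1 : k = i * (i⁻¹ * k) := by group
        rw [if_pos e1, mul_one]
      · intro g _ hg
        rw [if_neg, mul_zero]
        rintro rfl
        apply hg
        group
      · intro h2
        exact absurd hk h2
    · rw [h.zero _ hk, map_zero, Finset.sum_eq_zero]
      intro g hg
      rw [if_neg, mul_zero]
      rintro rfl
      apply hk
      have e1 : i⁻¹ * (i * g) = g := by group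
      rwa [e1]
  exact congrArg (fun f : (G →₀ ℂ) →ₗ[ℂ] H => f c) h1

omit [DecidableEq G] in
/-- the model at a good vertex -/
theorem Good.M_e {n : ℕ} {s : G → Equiv.Perm (Fin n)} {θ : Fin n → Ω} {B U : Finset G}
    {a : G → Ω → ℂ} {x : Fin n} (h : Good s θ B U a x) {W : Set G}
    (hW : ∀ i ∈ W, ∀ g ∈ U, g * i⁻¹ ∈ B ∧ g⁻¹ ∈ B) {c : G →₀ ℂ} (hc : Sp c W) :
    mdl s θ U a *ᵥ (ee s x c) = ee s x (TT U a (θ x) c) := by
  have h01 : ee s x c = ∑ i ∈ c.support, c i • Pi.single (s i⁻¹ x) 1 := by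
    rw [ee, Finsupp.linearCombination_apply, Finsupp.sum]
  have h02 : TT U a (θ x) c = ∑ i ∈ c.support, c i •
      ∑ g ∈ U, Finsupp.single (i * g⁻¹) (a g ((g * i⁻¹) • θ x)) := by
    rw [TT, Finsupp.linearCombination_apply, Finsupp.sum]
  rw [h01, h02, Matrix.mulVec_sum, map_sum]
  refine Finset.sum_congr rfl fun i hi => ?_
  have hiW : i ∈ W := by
    by_contra h2
    exact (Finsupp.mem_support_iff.1 hi) (hc i h2)
  rw [Matrix.mulVec_smul, map_smul, map_sum]
  congr 1
  simp_rw [ee, Finsupp.linearCombination_single]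
  funext y
  rw [Matrix.mulVec_single_one, Finset.sum_apply]
  show mdl s θ U a y (s i⁻¹ x) = _
  rw [mdl, Matrix.of_apply]
  refine Finset.sum_congr rfl fun g hg => ?_
  rw [Pi.smul_apply, smul_eq_mul, Pi.single_apply, mul_ite, mul_one, mul_zero]
  obtain ⟨hg1, hg2⟩ := hW i hiW g hg
  have e1 : (i * g⁻¹)⁻¹ = g * i⁻¹ := by group
  have e2 : s i⁻¹ x = s g⁻¹ (s (g * i⁻¹) x) := by
    rw [← h.mult g⁻¹ hg2 (g * i⁻¹) hg1]
    congr 2
    group
  rw [e1]
  by_cases hy : y = s (g * i⁻¹) x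
  · rw [if_pos hy, if_pos (by rw [e2, hy]), hy]
    exact h.equi _ hg1 g hg
  · rw [if_neg hy, if_neg]
    intro h3
    apply hy
    rw [e2] at h3
    exact ((s g⁻¹).injective h3).symm

omit [DecidableEq G] in
/-- the adjoint of the model at a good vertex -/
theorem Good.N_e {n : ℕ} {s : G → Equiv.Perm (Fin n)} {θ : Fin n → Ω} {B U : Finset G}
    {a : G → Ω → ℂ} {x : Fin n} (h : Good s θ B U a x) {W : Set G}
    (hW : ∀ i ∈ W, ∀ g ∈ U, i⁻¹ ∈ B ∧ g⁻¹ ∈ B) {c : G →₀ ℂ} (hc : Sp c W) :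
    (mdl s θ U a)ᴴ *ᵥ (ee s x c) = ee s x (SS U a (θ x) c) := by
  have h01 : ee s x c = ∑ i ∈ c.support, c i • Pi.single (s i⁻¹ x) 1 := by
    rw [ee, Finsupp.linearCombination_apply, Finsupp.sum]
  have h02 : SS U a (θ x) c = ∑ i ∈ c.support, c i •
      ∑ g ∈ U, Finsupp.single (i * g) (conj (a g (i⁻¹ • θ x))) := by
    rw [SS, Finsupp.linearCombination_apply, Finsupp.sum]
  rw [h01, h02, Matrix.mulVec_sum, map_sum]
  refine Finset.sum_congr rfl fun i hi => ?_
  have hiW : i ∈ W := by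
    by_contra h2
    exact (Finsupp.mem_support_iff.1 hi) (hc i h2)
  rw [Matrix.mulVec_smul, map_smul, map_sum]
  congr 1
  simp_rw [ee, Finsupp.linearCombination_single]
  funext y
  rw [Matrix.mulVec_single_one, Finset.sum_apply]
  show star (mdl s θ U a (s i⁻¹ x) y) = _
  rw [mdl, Matrix.of_apply, star_sum]
  refine Finset.sum_congr rfl fun g hg => ?_
  rw [Pi.smul_apply, smul_eq_mul, Pi.single_apply, mul_ite, mul_one, mul_zero]
  obtain ⟨hg1, hg2⟩ := hW i hiW g hg
  have e1 : (i * g)⁻¹ = g⁻¹ * i⁻¹ := by group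
  rw [e1, h.mult g⁻¹ hg2 i⁻¹ hg1]
  by_cases hy : y = s g⁻¹ (s i⁻¹ x)
  · rw [if_pos hy, if_pos hy, h.equi _ hg1 g hg]
    rfl
  · rw [if_neg hy, if_neg hy, star_zero]

/-- powers -/
theorem model_pow {n : ℕ} {s : G → Equiv.Perm (Fin n)} {θ : Fin n → Ω} {B U : Finset G}
    {a : G → Ω → ℂ} {x : Fin n} (h : Good s θ B U a x) {T : H →L[ℂ] H} (hT : Loc b T U a (θ x))
    (hU : ∀ u ∈ U, u⁻¹ ∈ U) (hU1 : (1 : G) ∈ U) (k : ℕ) (hB : ∀ g ∈ (U : Set G) ^ (2 * k + 1), g ∈ B) :
    ∃ c : G →₀ ℂ, (((mdl s θ U a)ᴴ * mdl s θ U a) ^ k) *ᵥ Pi.single x 1 = ee s x c ∧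
      ((star T * T) ^ k) (b 1) = hh b c ∧ Sp c ((U : Set G) ^ (2 * k)) := by
  have hU1' : (1 : G) ∈ (U : Set G) := hU1
  have hinv : ∀ (j : ℕ) (g : G), g ∈ (U : Set G) ^ j → g⁻¹ ∈ (U : Set G) ^ j := by
    intro j
    induction j with
    | zero =>
      intro g hg
      rw [pow_zero, Set.mem_one] at hg ⊢
      rw [hg, inv_one]
    | succ j ih =>
      intro g hg
      rw [pow_succ] at hg
      rw [pow_succ']
      obtain ⟨y, hy, z, hz, rfl⟩ := Set.mem_mul.1 hg
      refine Set.mem_mul.2 ⟨z⁻¹, hU z hz, y⁻¹, ih y hy, by group⟩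
  induction k with
  | zero =>
    refine ⟨Finsupp.single 1 1, ?_, ?_, ?_⟩
    · rw [pow_zero, Matrix.one_mulVec, ee, Finsupp.linearCombination_single, one_smul, inv_one,
        h.one (hB 1 (by simpa using hU1'))]
    · rw [pow_zero, hh, Finsupp.linearCombination_single, one_smul]
      rfl
    · intro i hi
      rw [Finsupp.single_apply, if_neg]
      rintro rfl
      apply hi
      simp
  | succ k ih =>
    have hsub : ∀ j, j ≤ 2 * (k + 1) + 1 → ∀ g ∈ (U : Set G) ^ j, g ∈ B := fun j hj g hg =>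
      hB g (Set.pow_subset_pow_right hU1' hj hg)
    obtain ⟨c, h1, h2, h3⟩ := ih (hsub _ (by omega))
    have hUB : ∀ g ∈ U, g⁻¹ ∈ B := fun g hg => hsub 1 (by omega) g⁻¹ (by
      rw [pow_one]
      exact hU g hg)
    have hTT : Sp (TT U a (θ x) c) ((U : Set G) ^ (2 * k + 1)) := by
      have := Sp.TT hU (a := a) (ω := θ x) h3
      rwa [← pow_succ] at this
    refine ⟨SS U a (θ x) (TT U a (θ x) c), ?_, ?_, ?_⟩
    · rw [pow_succ', ← Matrix.mulVec_mulVec, h1, ← Matrix.mulVec_mulVec,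
        h.M_e (W := (U : Set G) ^ (2 * k)) (fun i hi g hg => ⟨?_, hUB g hg⟩) h3,
        h.N_e (W := (U : Set G) ^ (2 * k + 1)) (fun i hi g hg => ⟨?_, hUB g hg⟩) hTT]
      · exact hsub _ (by omega) _ (hinv _ _ hi)
      · refine hsub (2 * k + 1) (by omega) _ ?_
        rw [pow_succ']
        exact Set.mem_mul.2 ⟨g, hg, i⁻¹, hinv _ _ hi, rfl⟩
    · rw [pow_succ']
      show (star T) (T (((star T * T) ^ k) (b 1))) = _
      rw [h2, hT.T_h, hT.S_h]
    · have := Sp.SS (U := U) (a := a) (ω := θ x) hTT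
      rw [← pow_succ] at this
      exact this

/-- diagonal entries -/
theorem model_entry {n : ℕ} {s : G → Equiv.Perm (Fin n)} {θ : Fin n → Ω} {B U : Finset G}
    {a : G → Ω → ℂ} {x : Fin n} (h : Good s θ B U a x) {T : H →L[ℂ] H} (hT : Loc b T U a (θ x))
    (hU : ∀ u ∈ U, u⁻¹ ∈ U) (hU1 : (1 : G) ∈ U) (k : ℕ) (hB : ∀ g ∈ (U : Set G) ^ (2 * k + 1), g ∈ B) :
    (((mdl s θ U a)ᴴ * mdl s θ U a) ^ k) x x = ⟪b 1, ((star T * T) ^ k) (b 1)⟫_ℂ := by
  obtain ⟨c, h1, h2, h3⟩ := model_pow b h hT hU hU1 k hB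
  have hU1' : (1 : G) ∈ (U : Set G) := hU1
  have e1 : ⟪b 1, hh b c⟫_ℂ = c 1 := by
    rw [hh, Finsupp.linearCombination_apply, Finsupp.sum, inner_sum]
    simp_rw [inner_smul_right, orthonormal_iff_ite.1 b.orthonormal]
    by_cases hc : (1 : G) ∈ c.support
    · rw [Finset.sum_eq_single 1]
      · simp
      · intro g _ hg
        rw [if_neg (Ne.symm hg), mul_zero]
      · intro h4
        exact absurd hc h4
    · rw [Finset.sum_eq_zero]
      · rw [Finsupp.mem_support_iff, not_not] at hc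
        exact hc.symm
      · intro g hg
        rw [if_neg, mul_zero]
        rintro rfl
        exact hc hg
  have hinv : ∀ (j : ℕ) (g : G), g ∈ (U : Set G) ^ j → g⁻¹ ∈ (U : Set G) ^ j := by
    intro j
    induction j with
    | zero =>
      intro g hg
      rw [pow_zero, Set.mem_one] at hg ⊢
      rw [hg, inv_one]
    | succ j ih =>
      intro g hg
      rw [pow_succ] at hg
      rw [pow_succ']
      obtain ⟨y, hy, z, hz, rfl⟩ := Set.mem_mul.1 hg
      refine Set.mem_mul.2 ⟨z⁻¹, hU z hz, y⁻¹, ih y hy, by group⟩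
  have e2 : ee s x c x = c 1 := by
    rw [ee, Finsupp.linearCombination_apply, Finsupp.sum, Finset.sum_apply]
    have h5 : ∀ i ∈ c.support, (c i • (Pi.single (s i⁻¹ x) 1 : Fin n → ℂ)) x
        = if i = 1 then c 1 else 0 := by
      intro i hi
      rw [Pi.smul_apply, smul_eq_mul, Pi.single_apply, mul_ite, mul_one, mul_zero]
      by_cases hi1 : i = 1
      · rw [if_pos hi1, hi1, inv_one, h.one (hB 1 (Set.one_mem_pow hU1')), if_pos rfl]
      · rw [if_neg hi1, if_neg]
        intro h6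
        have hiW : i ∈ (U : Set G) ^ (2 * k) := by
          by_contra h7
          exact (Finsupp.mem_support_iff.1 hi) (h3 i h7)
        refine h.free i⁻¹ (hB _ (Set.pow_subset_pow_right hU1' (by omega) (hinv _ _ hiW))) ?_ h6.symm
        intro h8
        exact hi1 (inv_eq_one.1 h8)
    rw [Finset.sum_congr rfl h5, Finset.sum_ite_eq']
    split_ifs with h9
    · rfl
    · rw [Finsupp.mem_support_iff, not_not] at h9
      exact h9.symm
  rw [h2, e1, ← e2, ← h1, Matrix.mulVec_single_one]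
  rfl

end

end Pool.Agent.TH315.SO
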