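import Pool.Agent.TH315.SO.FV
import Pool.Agent.TH322.AC.Comb

/-!
# Families of covariant fields of finite range with local coefficients in a ring
-/

set_option autoImplicit false
open scoped ComplexConjugate InnerProductSpace Topology BoundedContinuousFunction Pointwise
open MeasureTheory Filter

namespace Pool.Agent.TH315.SO
open Pool.Agent.H712R5.BO Pool.Agent.W611.RO

section
variable {G Ω H : Type} [Group G] [Countable G] [DecidableEq G] [MeasurableSpace Ω] [MulAction G Ω]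
  [NormedAddCommGroup H] [InnerProductSpace ℂ H] [CompleteSpace H]

/-- the coefficients `(1, g)` of the fields `X v` are the conjugates `σ v (m g ω)` of elements of
`R` which depend measurably on `ω`, take finitely many values and vanish for `g ∉ U` -/
structure LocF (b : HilbertBasis G ℂ H) (L : G → unitary (H →L[ℂ] H)) {R ι : Type} [CommRing R]
    (σ : ι → (R →+* ℂ)) (X : ι → CF (Ω := Ω) b L) (U : Finset G) (m : G → Ω → R) : Prop where
  coef : ∀ v ω g, ⟪b 1, ev b L ω (X v) (b g)⟫_ℂ = σ v (m g ω)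
  zero : ∀ g, g ∉ U → ∀ ω, m g ω = 0
  fv : ∀ g, FV (m g)

variable {b : HilbertBasis G ℂ H} {L : G → unitary (H →L[ℂ] H)} {R ι : Type} [CommRing R]
  {σ : ι → (R →+* ℂ)}

omit [DecidableEq G] in
theorem LocF.coef' (hL : Reg b L) {X : ι → CF (Ω := Ω) b L} {U : Finset G} {m : G → Ω → R}
    (hX : LocF b L σ X U m) (v : ι) (ω : Ω) (i j : G) :
    ⟪b i, ev b L ω (X v) (b j)⟫_ℂ = σ v (m (i⁻¹ * j) (i⁻¹ • ω)) := by
  have h := TR_shift b L hL (X v) i (i⁻¹ • ω) 1 (i⁻¹ * j)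
  rw [smul_inv_smul, mul_one, mul_inv_cancel_left] at h
  rw [h, hX.coef]

omit [DecidableEq G] in
/-- expansion of the coefficient of a product -/
theorem LocF.mul_coef (hL : Reg b L) {X Y : ι → CF (Ω := Ω) b L} {U V : Finset G}
    {m m' : G → Ω → R} (hX : LocF b L σ X U m) (hY : LocF b L σ Y V m') (v : ι) (ω : Ω) (g : G) :
    ⟪b 1, ev b L ω (X v * Y v) (b g)⟫_ℂ
      = σ v (∑ u ∈ U, m u ω * m' (u⁻¹ * g) (u⁻¹ • ω)) := by
  rw [map_mul]
  show ⟪b 1, ev b L ω (X v) (ev b L ω (Y v) (b g))⟫_ℂ = _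
  rw [TR_adj, ← b.tsum_inner_mul_inner]
  have h0 : ∀ l : G, ⟪ev b L ω (star (X v)) (b 1), b l⟫_ℂ * ⟪b l, ev b L ω (Y v) (b g)⟫_ℂ
      = σ v (m l ω * m' (l⁻¹ * g) (l⁻¹ • ω)) := by
    intro l
    rw [← TR_adj, hX.coef, hY.coef' hL, map_mul]
  simp_rw [h0]
  rw [tsum_eq_sum (s := U), map_sum]
  intro l hl
  rw [hX.zero l hl, zero_mul, map_zero]

theorem LocF.mul (hL : Reg b L) (hm : ∀ g : G, Measurable fun ω : Ω => g • ω)
    {X Y : ι → CF (Ω := Ω) b L} {U V : Finset G}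
    {m m' : G → Ω → R} (hX : LocF b L σ X U m) (hY : LocF b L σ Y V m') :
    LocF b L σ (fun v => X v * Y v) (U * V)
      (fun g ω => ∑ u ∈ U, m u ω * m' (u⁻¹ * g) (u⁻¹ • ω)) := by
  refine ⟨fun v ω g => hX.mul_coef hL hY v ω g, fun g hg ω => ?_, fun g => ?_⟩
  · refine Finset.sum_eq_zero fun u hu => ?_
    rw [hY.zero (u⁻¹ * g), mul_zero]
    intro h
    apply hg
    exact Finset.mem_mul.2 ⟨u, hu, u⁻¹ * g, h, by group⟩
  · refine FV.sum U _ fun u _ => ?_
    exact (hX.fv u).map₂ ((hY.fv (u⁻¹ * g)).comp (hm u⁻¹)) fun x y => x * y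

theorem LocF.one (b : HilbertBasis G ℂ H) (L : G → unitary (H →L[ℂ] H)) {R ι : Type} [CommRing R]
    (σ : ι → (R →+* ℂ)) : LocF b L σ (fun _ : ι => (1 : CF (Ω := Ω) b L)) {1}
      (fun g _ => if g = 1 then 1 else 0) := by
  refine ⟨fun v ω g => ?_, fun g hg ω => ?_, fun g => FV.const _⟩
  · rw [map_one (ev b L ω)]
    show ⟪b 1, b g⟫_ℂ = _
    rw [orthonormal_iff_ite.1 b.orthonormal 1 g]
    by_cases h : g = 1
    · rw [if_pos h, if_pos h.symm, map_one]
    · rw [if_neg h, if_neg (Ne.symm h), map_zero]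
  · rw [if_neg]
    intro h
    apply hg
    rw [h]
    exact Finset.mem_singleton_self _

theorem LocF.pow (hL : Reg b L) (hm : ∀ g : G, Measurable fun ω : Ω => g • ω)
    {X : ι → CF (Ω := Ω) b L} {U : Finset G} {m : G → Ω → R} (hX : LocF b L σ X U m) (k : ℕ) :
    ∃ (V : Finset G) (m' : G → Ω → R), LocF b L σ (fun v => X v ^ k) V m' := by
  induction k with
  | zero =>
    exact ⟨{1}, fun g _ => if g = 1 then 1 else 0, by
      simpa only [pow_zero] using LocF.one (Ω := Ω) b L σ⟩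
  | succ k ih =>
    obtain ⟨V, m', h⟩ := ih
    have h2 := h.mul hL hm hX
    exact ⟨V * U, _, by simpa only [pow_succ] using h2⟩

omit [DecidableEq G] in
/-- the complex version, for one field -/
theorem LocF.toC {X : ι → CF (Ω := Ω) b L} {U : Finset G} {m : G → Ω → R}
    (hX : LocF b L σ X U m) (v : ι) :
    LocF b L (fun _ : Unit => RingHom.id ℂ) (fun _ => X v) U (fun g ω => σ v (m g ω)) :=
  ⟨fun _ ω g => by rw [hX.coef]; rfl, fun g hg ω => by rw [hX.zero g hg, map_zero],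
    fun g => (hX.fv g).map _⟩

theorem LocF.starC (hL : Reg b L) (hm : ∀ g : G, Measurable fun ω : Ω => g • ω)
    {A : CF (Ω := Ω) b L} {U : Finset G} {a : G → Ω → ℂ}
    (hA : LocF b L (fun _ : Unit => RingHom.id ℂ) (fun _ => A) U a) :
    LocF b L (fun _ : Unit => RingHom.id ℂ) (fun _ => star A) U⁻¹
      (fun g ω => conj (a g⁻¹ (g⁻¹ • ω))) := by
  refine ⟨fun _ ω g => ?_, fun g hg ω => ?_, fun g => ?_⟩
  · have h1 := hA.coef' hL () ω g 1
    rw [mul_one] at h1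
    rw [TR_adj, star_star, ← inner_conj_symm, h1]
    rfl
  · rw [hA.zero g⁻¹ fun h => hg (by rwa [Finset.mem_inv']), map_zero]
  · exact ((hA.fv g⁻¹).comp (hm g⁻¹)).map _

theorem LocF.fv_pow (hL : Reg b L) (hm : ∀ g : G, Measurable fun ω : Ω => g • ω)
    {A : CF (Ω := Ω) b L} {U : Finset G} {a : G → Ω → ℂ}
    (hA : LocF b L (fun _ : Unit => RingHom.id ℂ) (fun _ => A) U a) (k : ℕ) :
    FV fun ω => ⟪b 1, ev b L ω ((star A * A) ^ k) (b 1)⟫_ℂ := by
  obtain ⟨V, m', h⟩ := ((hA.starC hL hm).mul hL hm hA).pow hL hm k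
  have h1 : (fun ω => ⟪b 1, ev b L ω ((star A * A) ^ k) (b 1)⟫_ℂ) = m' 1 := by
    funext ω
    exact h.coef () ω 1
  rw [h1]
  exact h.fv 1

theorem LocF.fv_aeval (hL : Reg b L) (hm : ∀ g : G, Measurable fun ω : Ω => g • ω)
    {A : CF (Ω := Ω) b L} {U : Finset G} {a : G → Ω → ℂ}
    (hA : LocF b L (fun _ : Unit => RingHom.id ℂ) (fun _ => A) U a) (q : Polynomial ℝ) :
    FV fun ω => (⟪b 1, ev b L ω (Polynomial.aeval (star A * A) q) (b 1)⟫_ℂ).re := by
  have h1 : ∀ ω, ⟪b 1, ev b L ω (Polynomial.aeval (star A * A) q) (b 1)⟫_ℂ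
      = ∑ k ∈ Finset.range (q.natDegree + 1),
        (q.coeff k : ℂ) * ⟪b 1, ev b L ω ((star A * A) ^ k) (b 1)⟫_ℂ := by
    intro ω
    rw [Polynomial.aeval_eq_sum_range, map_sum, _root_.sum_apply, inner_sum]
    refine Finset.sum_congr rfl fun k _ => ?_
    rw [← Complex.coe_smul, map_smul, _root_.smul_apply, inner_smul_right]
  simp_rw [h1]
  exact (FV.sum _ _ fun k _ => (hA.fv_pow hL hm k).map fun z => (q.coeff k : ℂ) * z).map Complex.re

end

end Pool.Agent.TH315.SO
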