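import Pool.Agent.TH315.SO.PPS

/-!
# Limits of integral matrices among covariant fields: hyperinvariant subspaces

(adapted from `Pool.Agent.TH322.AC.Comb`)
-/

set_option autoImplicit false
open scoped ComplexConjugate InnerProductSpace Topology BoundedContinuousFunction Pointwise
open MeasureTheory Filter

namespace Pool.Agent.TH315.SO
open Pool.Agent.H712R5.BO Pool.Agent.W611.RO Pool.Agent.TH322.AC

section
variable {G Ω H : Type} [Group G] [Countable G] [MeasurableSpace Ω] [MulAction G Ω]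
  [NormedAddCommGroup H] [InnerProductSpace ℂ H] [CompleteSpace H]

/-- polynomials detecting the kernel, for injective fields -/
theorem kerpolyC (P : Measure Ω) [IsProbabilityMeasure P] (b : HilbertBasis G ℂ H)
    (L : G → unitary (H →L[ℂ] H)) (X : CF (Ω := Ω) b L)
    (hinj : ∀ᵐ ω ∂P, ∀ x, ev b L ω X x = 0 → x = 0) (ε : ℝ) (hε : 0 < ε) {C : ℝ} (hC : ‖X‖ ≤ C) :
    ∃ s : Polynomial ℝ, 1 ≤ s.eval 0 ∧ (∀ x ∈ Set.Icc (0 : ℝ) (C ^ 2), 0 ≤ s.eval x) ∧
      (tau P b L (Polynomial.aeval (star X * X) s)).re ≤ ε := by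
  set ρ : ℝ := C ^ 2 + 1 with hρdef
  have hρ : 0 < ρ := by positivity
  have hCρ : C ^ 2 ≤ ρ := by linarith
  have hXρ : ‖X‖ ^ 2 ≤ ρ := (pow_le_pow_left₀ (norm_nonneg X) hC 2).trans hCρ
  have hev : ∀ ω : Ω, ‖ev b L ω X‖ ^ 2 ≤ ρ := fun ω => by
    have := ev_norm b L ω X
    have := pow_le_pow_left₀ (norm_nonneg _) this 2
    linarith
  have hb : ‖b 1‖ = 1 := b.orthonormal.1 1
  have hlim : Tendsto (fun n => tau P b L (Polynomial.aeval (star X * X) (sp ρ n))) atTop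
      (𝓝 0) := by
    have h0 : ∫ _ω : Ω, (0 : ℂ) ∂P = 0 := integral_zero _ _
    rw [← h0]
    simp_rw [tau_apply]
    refine tendsto_integral_of_dominated_convergence (fun _ => 1)
      (fun n => (ev_meas b L _ (b 1) (b 1)).aestronglyMeasurable) (integrable_const _)
      (fun n => Eventually.of_forall fun ω => ?_) ?_
    · have h1 := ev_inner_le b L (Polynomial.aeval (star X * X) (sp ρ n)) (b 1) (b 1) ω
      rw [hb, one_mul, one_mul] at h1
      exact h1.trans (norm_sp X hρ hXρ n)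
    · filter_upwards [hinj] with ω hω
      obtain ⟨Q, hQ1, hQ2, hQ3⟩ := lim_proj (ev b L ω X) hρ (hev ω)
      have h1 := hQ1 (b 1)
      rw [hω _ (hQ3 (b 1))] at h1
      have h2 : Tendsto (fun n => ⟪b 1, (Polynomial.aeval (star (ev b L ω X) * ev b L ω X)
          (sp ρ n)) (b 1)⟫_ℂ) atTop (𝓝 ⟪b 1, (0 : H)⟫_ℂ) := tendsto_const_nhds.inner h1
      rw [inner_zero_right] at h2
      refine h2.congr fun n => ?_
      rw [ev_aeval]
  have hre : Tendsto (fun n => (tau P b L (Polynomial.aeval (star X * X) (sp ρ n))).re) atTop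
      (𝓝 0) := by
    have := (Complex.continuous_re.tendsto 0).comp hlim
    rw [Complex.zero_re] at this
    exact this
  obtain ⟨n, hn1, hn2⟩ := ((eventually_ge_atTop 1).and
    (hre.eventually (ge_mem_nhds hε))).exists
  exact ⟨sp ρ n, (sp_zero ρ hn1).ge, fun x hx => sp_nonneg hρ n hx.1 (hx.2.trans hCρ), hn2⟩

end

section
variable {G Ω H : Type} [Group G] [Countable G] [DecidableEq G] [MeasurableSpace Ω] [MulAction G Ω]
  [NormedAddCommGroup H] [InnerProductSpace ℂ H] [CompleteSpace H]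

/-- an integral family with small trace: nontrivial hyperinvariant subspaces or zero -/
theorem main_gen (P : Measure Ω) [IsProbabilityMeasure P] (b : HilbertBasis G ℂ H)
    (L : G → unitary (H →L[ℂ] H)) (hL : Reg b L) (herg : Erg G P) {R ι : Type} [CommRing R]
    [Fintype ι] [DecidableEq ι] (σ : ι → (R →+* ℂ)) (w : ι → ℕ)
    (hinj : ∀ v, Function.Injective (σ v)) (hN : ∀ m : R, m ≠ 0 → 1 ≤ ∏ v, ‖σ v m‖ ^ w v)
    (v₀ : ι) (hw : 1 ≤ w v₀) (X : ι → CF (Ω := Ω) b L)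
    (hX : ∀ k : ℕ, ∃ C : ι → ℝ, (∀ v, ‖X v ^ k‖ ≤ C v) ∧ PP (tau P b L) σ C fun v => X v ^ k)
    (hsmall : ‖tau P b L (X v₀)‖ ^ (w v₀)
      * ∏ v ∈ Finset.univ.erase v₀, (1 + ‖X v‖) ^ (w v) < 1) :
    (∀ᵐ ω ∂P, HasHyp (ev b L ω (X v₀))) ∨ (∀ᵐ ω ∂P, ev b L ω (X v₀) = 0) := by
  have hτ : TrSt (tau P b L) := t_TR G Ω H P b L hL herg.mp
  rcases ker_dich P b L hL herg (X v₀) with h | h | h
  · exact Or.inl h
  swap
  · exact Or.inr h
  left
  -- the determinant inequality for the powers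
  have hdet : ∀ (k : ℕ) (δ : ℝ), 0 < δ → 0 ≤ ∑ v, (w v : ℝ) *
      (tau P b L (CFC.log (algebraMap ℝ (CF (Ω := Ω) b L) δ + star (X v ^ k) * X v ^ k))).re := by
    intro k δ hδ
    obtain ⟨C, hC, hPP⟩ := hX k
    refine logdet_nonneg (tau P b L) hτ σ w hinj hN v₀ C (fun v => X v ^ k) hC hPP ?_ hδ
    intro ε hε
    refine kerpolyC P b L (X v₀ ^ k) ?_ ε hε (hC v₀)
    clear hPP hC
    filter_upwards [h] with ω hω x hx
    rw [map_pow] at hx
    induction k generalizing x with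
    | zero => simpa using hx
    | succ k ih =>
      rw [pow_succ'] at hx
      exact ih x (hω _ hx)
  -- scaling
  set Pr : ℝ := ∏ v ∈ Finset.univ.erase v₀, (1 + ‖X v‖) ^ (w v) with hPr
  have hfac : ∀ v, (1 : ℝ) ≤ 1 + ‖X v‖ := fun v => by linarith [norm_nonneg (X v)]
  have hPr1 : 1 ≤ Pr := by
    rw [hPr]
    have : ∏ _v ∈ Finset.univ.erase v₀, (1 : ℝ)
        ≤ ∏ v ∈ Finset.univ.erase v₀, (1 + ‖X v‖) ^ (w v) :=
      Finset.prod_le_prod (fun _ _ => zero_le_one) fun v _ => one_le_pow₀ (hfac v)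
    simpa using this
  have hPr0 : 0 < Pr := by linarith
  have hw0 : (0 : ℝ) < w v₀ := by exact_mod_cast hw
  set κ : ℝ := Real.log Pr / w v₀ with hκ
  have hκ2 : (w v₀ : ℝ) * κ = Real.log Pr := by rw [hκ]; field_simp
  have hl0 : 0 < Real.exp κ := Real.exp_pos κ
  have hlw : Real.exp κ ^ (w v₀) = Pr := by
    rw [← Real.exp_nat_mul, hκ2, Real.exp_log hPr0]
  have hsmall2 : ‖tau P b L ((Real.exp κ : ℂ) • X v₀)‖ < 1 := by
    have h1 : ‖tau P b L ((Real.exp κ : ℂ) • X v₀)‖ = Real.exp κ * ‖tau P b L (X v₀)‖ := by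
      rw [map_smul, smul_eq_mul, norm_mul]
      congr 1
      have : (Real.exp κ : ℂ) = ((Real.exp κ : ℝ) : ℂ) := rfl
      rw [Complex.norm_real, Real.norm_eq_abs, abs_of_pos hl0]
    rw [h1]
    by_contra hc
    rw [not_lt] at hc
    have h2 := one_le_pow₀ hc (n := w v₀)
    rw [mul_pow, hlw, mul_comm] at h2
    linarith
  have hdet2 : ∀ (k : ℕ) (δ : ℝ), 1 ≤ k → 0 < δ →
      0 ≤ (tau P b L (CFC.log (algebraMap ℝ (CF (Ω := Ω) b L) δ
        + star (((Real.exp κ : ℂ) • X v₀) ^ k) * ((Real.exp κ : ℂ) • X v₀) ^ k))).re := by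
    intro k δ hk hδ
    have h0 := logdet_smul (tau P b L) hτ (X v₀) hδ hl0 k
    have h0' : ((Real.exp κ : ℝ) : ℂ) = (Real.exp κ : ℂ) := rfl
    rw [h0', Real.log_exp] at h0
    rw [h0]
    have hlk : 0 < (Real.exp κ ^ 2) ^ k := by positivity
    set δ₁ : ℝ := min (δ / (Real.exp κ ^ 2) ^ k) 1 with hδ₁
    have hδ₁0 : 0 < δ₁ := lt_min (by positivity) one_pos
    have h1 := logdet_mono (tau P b L) hτ (X v₀ ^ k) hδ₁0 (min_le_left _ _ :
      δ₁ ≤ δ / (Real.exp κ ^ 2) ^ k)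
    have h2 := hdet k δ₁ hδ₁0
    rw [← Finset.add_sum_erase _ _ (Finset.mem_univ v₀)] at h2
    have h3 : ∑ v ∈ Finset.univ.erase v₀, (w v : ℝ) *
        (tau P b L (CFC.log (algebraMap ℝ (CF (Ω := Ω) b L) δ₁ + star (X v ^ k) * X v ^ k))).re
        ≤ 2 * k * Real.log Pr := by
      have h4 : Real.log Pr = ∑ v ∈ Finset.univ.erase v₀, (w v : ℝ) * Real.log (1 + ‖X v‖) := by
        rw [hPr, Real.log_prod (fun v _ => (pow_pos (by linarith [hfac v]) _).ne')]
        exact Finset.sum_congr rfl fun v _ => Real.log_pow _ _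
      rw [h4, Finset.mul_sum]
      refine Finset.sum_le_sum fun v _ => ?_
      have h5 := logdet_le (tau P b L) hτ (X v ^ k) hδ₁0 (C := ‖X v‖ ^ k)
        (norm_pow_le' _ (by omega))
      have h6 : Real.log (δ₁ + (‖X v‖ ^ k) ^ 2) ≤ 2 * k * Real.log (1 + ‖X v‖) := by
        have h7 : δ₁ + (‖X v‖ ^ k) ^ 2 ≤ (1 + ‖X v‖) ^ (k * 2) := by
          have h8 := pow_add_pow_le (zero_le_one : (0 : ℝ) ≤ 1) (norm_nonneg (X v))
            (n := k * 2) (by omega)
          rw [one_pow] at h8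
          rw [← pow_mul]
          have := min_le_right (δ / (Real.exp κ ^ 2) ^ k) 1
          linarith
        have h9 := Real.log_le_log (by positivity) h7
        rw [Real.log_pow] at h9
        push_cast at h9
        linarith
      calc (w v : ℝ) * (tau P b L (CFC.log (algebraMap ℝ (CF (Ω := Ω) b L) δ₁
            + star (X v ^ k) * X v ^ k))).re ≤ (w v : ℝ) * (2 * k * Real.log (1 + ‖X v‖)) :=
            mul_le_mul_of_nonneg_left (h5.trans h6) (Nat.cast_nonneg _)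
        _ = 2 * k * ((w v : ℝ) * Real.log (1 + ‖X v‖)) := by ring
    rw [← hκ2] at h3
    have h10 : 0 ≤ (w v₀ : ℝ) * (2 * k * κ + (tau P b L (CFC.log (algebraMap ℝ
        (CF (Ω := Ω) b L) δ₁ + star (X v₀ ^ k) * X v₀ ^ k))).re) := by
      nlinarith
    have h11 := nonneg_of_mul_nonneg_right h10 hw0
    linarith
  have hmain := t_ABS1 Ω P G H (CF (Ω := Ω) b L) (tau P b L) (fun ω => ev b L ω) (fun k => b k) (b 1)
    hτ (b.orthonormal.1 1) (Pool.Agent.W253.RO.total b)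
    (fun A => (Pool.Agent.W540.RO.t_N2 G Ω H P b L hL herg.mp A).1)
    (fun A => ⟨ev_int P b L A _ _, tau_apply P b L A⟩)
    (fun A k => ⟨((Pool.Agent.W540.RO.t_N2 G Ω H P b L hL herg.mp A).2 k).1,
      ((Pool.Agent.W540.RO.t_N2 G Ω H P b L hL herg.mp A).2 k).2.le⟩)
    (fun B R hB => Pool.Agent.W545.RO.t_ERG G Ω H P b L hL herg B R hB)
    ((Real.exp κ : ℂ) • X v₀) hsmall2 hdet2
  filter_upwards [hmain] with ω hω
  have h1 : ev b L ω ((Real.exp κ : ℂ) • X v₀) = (Real.exp κ : ℂ) • ev b L ω (X v₀) := by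
    rw [map_smul]
  rw [h1] at hω
  exact Pool.Agent.W253.RO.hasHyp_of_smul _ _ hω


/-- sofic actions -/
theorem main_sof (P : Measure Ω) [IsProbabilityMeasure P] (hS : SofAct G P) (b : HilbertBasis G ℂ H)
    (L : G → unitary (H →L[ℂ] H)) (hL : Reg b L) (herg : Erg G P) {R ι : Type} [CommRing R]
    [Fintype ι] [DecidableEq ι] (σ : ι → (R →+* ℂ)) (w : ι → ℕ)
    (hinj : ∀ v, Function.Injective (σ v)) (hN : ∀ m : R, m ≠ 0 → 1 ≤ ∏ v, ‖σ v m‖ ^ w v)
    (v₀ : ι) (hw : 1 ≤ w v₀) (X : ι → CF (Ω := Ω) b L) {U : Finset G} {m : G → Ω → R}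
    (hX : LocF b L σ X U m)
    (hsmall : ‖tau P b L (X v₀)‖ ^ (w v₀)
      * ∏ v ∈ Finset.univ.erase v₀, (1 + ‖X v‖) ^ (w v) < 1) :
    (∀ᵐ ω ∂P, HasHyp (ev b L ω (X v₀))) ∨ (∀ᵐ ω ∂P, ev b L ω (X v₀) = 0) := by
  refine main_gen P b L hL herg σ w hinj hN v₀ hw X (fun k => ?_) hsmall
  obtain ⟨V, m', hk⟩ := hX.pow hL (fun g => (herg.mp g).measurable) k
  exact PP_of_sof P hS b L hL herg.mp σ (fun v => X v ^ k) hk

end

end Pool.Agent.TH315.SO
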