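import Mathlib

/-!
# Measurable functions with finitely many values
-/

set_option autoImplicit false

namespace Pool.Agent.TH315.SO

/-- finitely many values, with measurable level sets -/
def FV {Ω α : Type} [MeasurableSpace Ω] (f : Ω → α) : Prop :=
  (Set.range f).Finite ∧ ∀ c, MeasurableSet (f ⁻¹' {c})

section
variable {Ω α β γ : Type} [MeasurableSpace Ω]

theorem FV.meas {f : Ω → α} (hf : FV f) (s : Set α) : MeasurableSet (f ⁻¹' s) := by
  have h1 : f ⁻¹' s = ⋃ y ∈ (Set.range f) ∩ s, f ⁻¹' {y} := by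
    ext ω
    simp only [Set.mem_preimage, Set.mem_iUnion, Set.mem_inter_iff, Set.mem_range,
      Set.mem_singleton_iff, exists_prop]
    constructor
    · intro hω
      exact ⟨f ω, ⟨⟨ω, rfl⟩, hω⟩, rfl⟩
    · rintro ⟨y, ⟨-, hy⟩, rfl⟩
      exact hy
  rw [h1]
  exact Set.Finite.measurableSet_biUnion (hf.1.subset Set.inter_subset_left) fun y _ => hf.2 y

theorem FV.const (c : α) : FV (fun _ : Ω => c) :=
  ⟨(Set.finite_singleton c).subset (by rintro _ ⟨_, rfl⟩; rfl), fun _ => MeasurableSet.const _⟩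

theorem FV.map₂ {f : Ω → α} {g : Ω → β} (hf : FV f) (hg : FV g) (h : α → β → γ) :
    FV fun ω => h (f ω) (g ω) := by
  constructor
  · refine Set.Finite.subset (Set.Finite.image2 h hf.1 hg.1) ?_
    rintro _ ⟨ω, rfl⟩
    exact Set.mem_image2_of_mem ⟨ω, rfl⟩ ⟨ω, rfl⟩
  · intro c
    have h1 : (fun ω => h (f ω) (g ω)) ⁻¹' {c}
        = ⋃ y ∈ Set.range f, (f ⁻¹' {y}) ∩ g ⁻¹' {z | h y z = c} := by
      ext ω
      simp only [Set.mem_preimage, Set.mem_singleton_iff, Set.mem_iUnion, Set.mem_range,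
        Set.mem_inter_iff, Set.mem_setOf_eq, exists_prop]
      constructor
      · intro hω
        exact ⟨f ω, ⟨ω, rfl⟩, rfl, hω⟩
      · rintro ⟨y, -, hy, hz⟩
        rw [hy]
        exact hz
    rw [h1]
    exact Set.Finite.measurableSet_biUnion hf.1 fun y _ => (hf.2 y).inter (hg.meas _)

theorem FV.map {f : Ω → α} (hf : FV f) (h : α → β) : FV fun ω => h (f ω) :=
  hf.map₂ (FV.const ()) fun a _ => h a

theorem FV.comp {f : Ω → α} (hf : FV f) {φ : Ω → Ω} (hφ : Measurable φ) :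
    FV fun ω => f (φ ω) :=
  ⟨hf.1.subset (by rintro _ ⟨ω, rfl⟩; exact ⟨φ ω, rfl⟩), fun c => hφ (hf.2 c)⟩

theorem FV.sum [AddCommMonoid α] {κ : Type} (s : Finset κ) (f : κ → Ω → α)
    (hf : ∀ i ∈ s, FV (f i)) : FV fun ω => ∑ i ∈ s, f i ω := by
  classical
  induction s using Finset.induction_on with
  | empty => simpa using FV.const (Ω := Ω) (0 : α)
  | insert i s hi ih =>
    simp_rw [Finset.sum_insert hi]
    exact (hf i (Finset.mem_insert_self _ _)).map₂
      (ih fun j hj => hf j (Finset.mem_insert_of_mem hj)) fun a b => a + b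

end

end Pool.Agent.TH315.SO
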