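import Pool.Agent.TH315.SO.Coef

/-!
# Finite models
-/

set_option autoImplicit false
open scoped ComplexConjugate InnerProductSpace Topology BoundedContinuousFunction Pointwise Matrix
open MeasureTheory Filter Matrix

namespace Pool.Agent.TH315.SO
open Pool.Agent.H712R5.BO Pool.Agent.W611.RO Pool.Agent.TH322.AC

section OpLe
variable {κ : Type} [Fintype κ] [DecidableEq κ]

omit [DecidableEq κ] in
theorem opLe_iff (A : Matrix κ κ ℂ) {a : ℝ} (ha : 0 ≤ a) :
    OpLe A a ↔ ∀ x : κ → ℂ, ‖WithLp.toLp 2 (A *ᵥ x)‖ ≤ a * ‖WithLp.toLp 2 x‖ := by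
  refine forall_congr' fun x => ?_
  have h1 : ∀ y : κ → ℂ, ∑ i, ‖y i‖ ^ 2 = ‖WithLp.toLp 2 y‖ ^ 2 := by
    intro y
    rw [EuclideanSpace.norm_sq_eq]
  rw [h1, h1, ← mul_pow, sq_le_sq₀ (norm_nonneg _) (by positivity)]

omit [DecidableEq κ] in
theorem OpLe.add {A B : Matrix κ κ ℂ} {a c : ℝ} (ha : 0 ≤ a) (hc : 0 ≤ c) (hA : OpLe A a)
    (hB : OpLe B c) : OpLe (A + B) (a + c) := by
  rw [opLe_iff _ ha] at hA
  rw [opLe_iff _ hc] at hB
  rw [opLe_iff _ (add_nonneg ha hc)]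
  intro x
  rw [Matrix.add_mulVec, WithLp.toLp_add, add_mul]
  exact (norm_add_le _ _).trans (add_le_add (hA x) (hB x))

omit [DecidableEq κ] in
theorem OpLe.zero : OpLe (0 : Matrix κ κ ℂ) 0 := by
  intro x
  simp

omit [DecidableEq κ] in
theorem OpLe.sum {α : Type} (s : Finset α) (A : α → Matrix κ κ ℂ) (a : α → ℝ)
    (ha : ∀ i ∈ s, 0 ≤ a i) (h : ∀ i ∈ s, OpLe (A i) (a i)) :
    OpLe (∑ i ∈ s, A i) (∑ i ∈ s, a i) := by
  classical
  induction s using Finset.induction_on with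
  | empty => simpa using OpLe.zero
  | insert i s hi ih =>
    rw [Finset.sum_insert hi, Finset.sum_insert hi]
    exact OpLe.add (ha i (Finset.mem_insert_self _ _))
      (Finset.sum_nonneg fun j hj => ha j (Finset.mem_insert_of_mem hj))
      (h i (Finset.mem_insert_self _ _))
      (ih (fun j hj => ha j (Finset.mem_insert_of_mem hj)) fun j hj => h j (Finset.mem_insert_of_mem hj))

omit [DecidableEq κ] in
theorem OpLe.mono {A : Matrix κ κ ℂ} {a c : ℝ} (ha : 0 ≤ a) (hac : a ≤ c) (hA : OpLe A a) :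
    OpLe A c := by
  intro x
  refine (hA x).trans ?_
  exact mul_le_mul_of_nonneg_right (pow_le_pow_left₀ ha hac 2)
    (Finset.sum_nonneg fun _ _ => by positivity)

/-- weighted permutation matrices -/
theorem opLe_perm (π : Equiv.Perm κ) (d : κ → ℂ) {B : ℝ} (hB : ∀ x, ‖d x‖ ≤ B) :
    OpLe (Matrix.of fun x y => if y = π x then d x else 0) B := by
  intro x
  have h1 : ∀ i, ((Matrix.of fun x y => if y = π x then d x else 0) *ᵥ x) i = d i * x (π i) := by
    intro i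
    rw [Matrix.mulVec, dotProduct, Finset.sum_eq_single (π i)]
    · simp
    · intro j _ hj
      simp [hj]
    · simp
  have h2 : ∑ i, ‖x i‖ ^ 2 = ∑ i, ‖x (π i)‖ ^ 2 := (Equiv.sum_comp π fun i => ‖x i‖ ^ 2).symm
  rw [h2, Finset.mul_sum]
  refine Finset.sum_le_sum fun i _ => ?_
  rw [h1, norm_mul, mul_pow]
  exact mul_le_mul_of_nonneg_right (pow_le_pow_left₀ (norm_nonneg _) (hB i) 2) (by positivity)

end OpLe

section
variable {G : Type} [Group G] [DecidableEq G]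

/-- the matrix of the model -/
def mdl {Ω R : Type} [CommRing R] {n : ℕ} (s : G → Equiv.Perm (Fin n)) (θ : Fin n → Ω) (U : Finset G)
    (m : G → Ω → R) : Matrix (Fin n) (Fin n) R :=
  Matrix.of fun x y => ∑ g ∈ U, if y = s g⁻¹ x then m g (θ x) else 0

omit [DecidableEq G] in
theorem mdl_map {Ω R : Type} [CommRing R] {n : ℕ} (s : G → Equiv.Perm (Fin n)) (θ : Fin n → Ω)
    (U : Finset G) (m : G → Ω → R) (f : R →+* ℂ) :
    (mdl s θ U m).map f = mdl s θ U fun g ω => f (m g ω) := by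
  ext x y
  show f (∑ g ∈ U, if y = s g⁻¹ x then m g (θ x) else 0) = _
  rw [map_sum]
  refine Finset.sum_congr rfl fun g _ => ?_
  split_ifs
  · rfl
  · exact map_zero f

omit [DecidableEq G] in
theorem mdl_opLe {Ω : Type} {n : ℕ} (s : G → Equiv.Perm (Fin n)) (θ : Fin n → Ω)
    (U : Finset G) (a : G → Ω → ℂ) (B : G → ℝ) (hB0 : ∀ g, 0 ≤ B g) (hB : ∀ g ω, ‖a g ω‖ ≤ B g) :
    OpLe (mdl s θ U a) (∑ g ∈ U, B g) := by
  have h1 : mdl s θ U a = ∑ g ∈ U, Matrix.of fun x y => if y = s g⁻¹ x then a g (θ x) else 0 := by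
    ext x y
    rw [Matrix.sum_apply]
    rfl
  rw [h1]
  exact OpLe.sum U _ _ (fun g _ => hB0 g) fun g _ => opLe_perm (s g⁻¹) _ fun x => hB g _

end

end Pool.Agent.TH315.SO
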