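import Pool.Agent.TH315.SO.Tr

/-!
# Fields with local coefficients over a sofic action are limits of matrices
-/

set_option autoImplicit false
open scoped ComplexConjugate InnerProductSpace Topology BoundedContinuousFunction Pointwise Matrix
open MeasureTheory Filter Matrix

namespace Pool.Agent.TH315.SO
open Pool.Agent.H712R5.BO Pool.Agent.W611.RO Pool.Agent.TH322.AC

/-- sofic actions: the action has finite models -/
def SofAct (G : Type) {Ω : Type} [Group G] [MulAction G Ω] [MeasurableSpace Ω] (P : Measure Ω) :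
    Prop :=
  ∀ (K : Finset G) (𝒜 : Finset (Set Ω)) (ε : ℝ), (∀ A ∈ 𝒜, MeasurableSet A) → 0 < ε →
    ∃ (n : ℕ) (s : G → Equiv.Perm (Fin n)) (θ : Fin n → Ω), 0 < n ∧
      (∀ g ∈ K, ∀ h ∈ K, (({x | s (g * h) x ≠ s g (s h x)}.ncard : ℕ) : ℝ) ≤ ε * n) ∧
      (∀ g ∈ K, g ≠ 1 → (({x | s g x = x}.ncard : ℕ) : ℝ) ≤ ε * n) ∧
      (∀ g ∈ K, ∀ A ∈ 𝒜, (({x | ¬ (θ (s g x) ∈ A ↔ g • θ x ∈ A)}.ncard : ℕ) : ℝ) ≤ ε * n) ∧
      (∀ A ∈ 𝒜, |(({x | θ x ∈ A}.ncard : ℕ) : ℝ) - n * P.real A| ≤ ε * n)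

/-- number of the vertices which are not good -/
theorem card_bad {G Ω R : Type} [Group G] [DecidableEq G] [MulAction G Ω] {n : ℕ}
    (s : G → Equiv.Perm (Fin n)) (θ : Fin n → Ω) (B U : Finset G) (m : G → Ω → R)
    (𝒜 : Finset (Set Ω)) (ε : ℝ) (hε : 0 ≤ ε)
    (h1 : ∀ g ∈ B, ∀ h ∈ B, (({x | s (g * h) x ≠ s g (s h x)}.ncard : ℕ) : ℝ) ≤ ε * n)
    (h2 : ∀ g ∈ B, g ≠ 1 → (({x | s g x = x}.ncard : ℕ) : ℝ) ≤ ε * n)
    (h3 : ∀ g ∈ B, ∀ A ∈ 𝒜, (({x | ¬ (θ (s g x) ∈ A ↔ g • θ x ∈ A)}.ncard : ℕ) : ℝ) ≤ ε * n)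
    (hA : ∀ g ∈ U, ∀ ω, m g ⁻¹' {m g ω} ∈ 𝒜) :
    ∃ bad : Finset (Fin n), (∀ x, x ∉ bad → Good s θ B U m x) ∧
      (bad.card : ℝ) ≤ ((B.card : ℝ) ^ 2 + B.card + B.card * 𝒜.card) * (ε * n) := by
  classical
  set b1 : Finset (Fin n) := (B ×ˢ B).biUnion fun p =>
    Finset.univ.filter fun x => s (p.1 * p.2) x ≠ s p.1 (s p.2 x) with hb1
  set b2 : Finset (Fin n) := (B.filter fun g => g ≠ 1).biUnion fun g =>
    Finset.univ.filter fun x => s g x = x with hb2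
  set b3 : Finset (Fin n) := (B ×ˢ 𝒜).biUnion fun p =>
    Finset.univ.filter fun x => ¬ (θ (s p.1 x) ∈ p.2 ↔ p.1 • θ x ∈ p.2) with hb3
  refine ⟨b1 ∪ b2 ∪ b3, fun x hx => ?_, ?_⟩
  · rw [Finset.mem_union, Finset.mem_union, not_or, not_or] at hx
    obtain ⟨⟨hx1, hx2⟩, hx3⟩ := hx
    refine ⟨fun g hg h hh => ?_, fun g hg hg1 hgx => ?_, fun h hh g hg => ?_⟩
    · by_contra hc
      apply hx1
      rw [hb1, Finset.mem_biUnion]
      exact ⟨(g, h), Finset.mem_product.2 ⟨hg, hh⟩, Finset.mem_filter.2 ⟨Finset.mem_univ _, hc⟩⟩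
    · apply hx2
      rw [hb2, Finset.mem_biUnion]
      exact ⟨g, Finset.mem_filter.2 ⟨hg, hg1⟩, Finset.mem_filter.2 ⟨Finset.mem_univ _, hgx⟩⟩
    · have h4 : θ (s h x) ∈ m g ⁻¹' {m g (h • θ x)} ↔ h • θ x ∈ m g ⁻¹' {m g (h • θ x)} := by
        by_contra hc
        apply hx3
        rw [hb3, Finset.mem_biUnion]
        exact ⟨(h, m g ⁻¹' {m g (h • θ x)}), Finset.mem_product.2 ⟨hh, hA g hg _⟩,
          Finset.mem_filter.2 ⟨Finset.mem_univ _, hc⟩⟩
      exact h4.2 rfl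
  · have hc : ∀ (p : Fin n → Prop) [DecidablePred p],
        ((Finset.univ.filter p).card : ℝ) = (({x | p x}.ncard : ℕ) : ℝ) := by
      intro p _
      have : {x | p x} = ((Finset.univ.filter p : Finset (Fin n)) : Set (Fin n)) := by
        ext x
        simp
      rw [this, Set.ncard_coe_finset]
    have hen : 0 ≤ ε * n := by positivity
    have e1 : (b1.card : ℝ) ≤ (B.card : ℝ) ^ 2 * (ε * n) := by
      have h5 : (b1.card : ℝ) ≤ ∑ p ∈ B ×ˢ B,
          ((Finset.univ.filter fun x => s (p.1 * p.2) x ≠ s p.1 (s p.2 x)).card : ℝ) := by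
        exact_mod_cast Finset.card_biUnion_le
      refine h5.trans ?_
      have h6 : ∑ p ∈ B ×ˢ B, ((Finset.univ.filter fun x => s (p.1 * p.2) x ≠ s p.1 (s p.2 x)).card : ℝ)
          ≤ ∑ _p ∈ B ×ˢ B, ε * n := by
        refine Finset.sum_le_sum fun p hp => ?_
        rw [Finset.mem_product] at hp
        rw [hc]
        exact h1 _ hp.1 _ hp.2
      rw [Finset.sum_const, nsmul_eq_mul, Finset.card_product] at h6
      push_cast at h6
      rw [sq]
      exact h6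
    have e2 : (b2.card : ℝ) ≤ (B.card : ℝ) * (ε * n) := by
      have h5 : (b2.card : ℝ) ≤ ∑ g ∈ B.filter (fun g => g ≠ 1),
          ((Finset.univ.filter fun x => s g x = x).card : ℝ) := by
        exact_mod_cast Finset.card_biUnion_le
      refine h5.trans ?_
      have h6 : ∑ g ∈ B.filter (fun g => g ≠ 1), ((Finset.univ.filter fun x => s g x = x).card : ℝ)
          ≤ ∑ _g ∈ B.filter (fun g => g ≠ 1), ε * n := by
        refine Finset.sum_le_sum fun g hg => ?_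
        rw [Finset.mem_filter] at hg
        rw [hc]
        exact h2 _ hg.1 hg.2
      rw [Finset.sum_const, nsmul_eq_mul] at h6
      refine h6.trans (mul_le_mul_of_nonneg_right ?_ hen)
      exact_mod_cast Finset.card_filter_le _ _
    have e3 : (b3.card : ℝ) ≤ (B.card : ℝ) * 𝒜.card * (ε * n) := by
      have h5 : (b3.card : ℝ) ≤ ∑ p ∈ B ×ˢ 𝒜,
          ((Finset.univ.filter fun x => ¬ (θ (s p.1 x) ∈ p.2 ↔ p.1 • θ x ∈ p.2)).card : ℝ) := by
        exact_mod_cast Finset.card_biUnion_le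
      refine h5.trans ?_
      have h6 : ∑ p ∈ B ×ˢ 𝒜,
          ((Finset.univ.filter fun x => ¬ (θ (s p.1 x) ∈ p.2 ↔ p.1 • θ x ∈ p.2)).card : ℝ)
          ≤ ∑ _p ∈ B ×ˢ 𝒜, ε * n := by
        refine Finset.sum_le_sum fun p hp => ?_
        rw [Finset.mem_product] at hp
        rw [hc]
        exact h3 _ hp.1 _ hp.2
      rw [Finset.sum_const, nsmul_eq_mul, Finset.card_product] at h6
      push_cast at h6
      exact h6
    have e4 : ((b1 ∪ b2 ∪ b3).card : ℝ) ≤ b1.card + b2.card + b3.card := by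
      have h7 := (Finset.card_union_le (b1 ∪ b2) b3).trans
        (Nat.add_le_add_right (Finset.card_union_le b1 b2) _)
      exact_mod_cast h7
    calc ((b1 ∪ b2 ∪ b3).card : ℝ) ≤ b1.card + b2.card + b3.card := e4
      _ ≤ (B.card : ℝ) ^ 2 * (ε * n) + (B.card : ℝ) * (ε * n) + (B.card : ℝ) * 𝒜.card * (ε * n) := by
        linarith
      _ = _ := by ring

/-- averages of finite-valued functions -/
theorem avg_fv {Ω : Type} [MeasurableSpace Ω] (P : Measure Ω) [IsProbabilityMeasure P] {Φ : Ω → ℝ}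
    (hΦ : FV Φ) {n : ℕ} (θ : Fin n → Ω) (ε : ℝ)
    (h : ∀ c ∈ Set.range Φ, |(({x | θ x ∈ Φ ⁻¹' {c}}.ncard : ℕ) : ℝ) - n * P.real (Φ ⁻¹' {c})| ≤ ε * n) :
    ∑ x, Φ (θ x) ≤ n * ∫ ω, Φ ω ∂P + (∑ c ∈ hΦ.1.toFinset, |c|) * (ε * n) := by
  classical
  set S : Finset ℝ := hΦ.1.toFinset with hS
  have hmem : ∀ ω, Φ ω ∈ S := fun ω => hΦ.1.mem_toFinset.2 ⟨ω, rfl⟩
  have e1 : ∑ x, Φ (θ x) = ∑ c ∈ S, c * (({x | θ x ∈ Φ ⁻¹' {c}}.ncard : ℕ) : ℝ) := by
    have h1 : ∀ x, Φ (θ x) = ∑ c ∈ S, if Φ (θ x) = c then c else 0 := by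
      intro x
      rw [Finset.sum_ite_eq, if_pos (hmem _)]
    rw [Finset.sum_congr rfl fun x _ => h1 x, Finset.sum_comm]
    refine Finset.sum_congr rfl fun c _ => ?_
    rw [← Finset.sum_filter, Finset.sum_const, nsmul_eq_mul, mul_comm]
    congr 2
    have : {x | θ x ∈ Φ ⁻¹' {c}} = ((Finset.univ.filter fun x => Φ (θ x) = c : Finset (Fin n)) : Set (Fin n)) := by
      ext x
      simp
    rw [this, Set.ncard_coe_finset]
  have e2 : ∫ ω, Φ ω ∂P = ∑ c ∈ S, c * P.real (Φ ⁻¹' {c}) := by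
    have h1 : ∀ ω, Φ ω = ∑ c ∈ S, (Φ ⁻¹' {c}).indicator (fun _ => c) ω := by
      intro ω
      rw [Finset.sum_eq_single (Φ ω)]
      · rw [Set.indicator_of_mem]
        rfl
      · intro c _ hc
        rw [Set.indicator_of_notMem]
        intro h2
        exact hc (Set.mem_singleton_iff.1 h2).symm
      · intro h2
        exact absurd (hmem ω) h2
    rw [integral_congr_ae (Eventually.of_forall h1), integral_finsetSum]
    · refine Finset.sum_congr rfl fun c _ => ?_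
      rw [integral_indicator_const c (hΦ.2 c), smul_eq_mul, mul_comm]
    · intro c _
      exact (integrable_const c).indicator (hΦ.2 c)
  rw [e1, e2, Finset.mul_sum, Finset.sum_mul, ← Finset.sum_add_distrib]
  refine Finset.sum_le_sum fun c hc => ?_
  have h1 := h c (hΦ.1.mem_toFinset.1 hc)
  have h2 : c * ((({x | θ x ∈ Φ ⁻¹' {c}}.ncard : ℕ) : ℝ) - n * P.real (Φ ⁻¹' {c})) ≤ |c| * (ε * n) := by
    refine (le_abs_self _).trans ?_
    rw [abs_mul]
    exact mul_le_mul_of_nonneg_left h1 (abs_nonneg _)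
  linarith

section
variable {G Ω H : Type} [Group G] [Countable G] [DecidableEq G] [MeasurableSpace Ω] [MulAction G Ω]
  [NormedAddCommGroup H] [InnerProductSpace ℂ H] [CompleteSpace H]

theorem PP_of_sof (P : Measure Ω) [IsProbabilityMeasure P] (hS : SofAct G P) (b : HilbertBasis G ℂ H)
    (L : G → unitary (H →L[ℂ] H)) (hL : Reg b L)
    (hmp : ∀ g : G, MeasurePreserving (fun ω : Ω => g • ω) P P) {R ι : Type} [CommRing R]
    [Fintype ι] (σ : ι → (R →+* ℂ)) (X : ι → CF (Ω := Ω) b L) {U₀ : Finset G} {m : G → Ω → R}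
    (hX : LocF b L σ X U₀ m) :
    ∃ C : ι → ℝ, (∀ v, ‖X v‖ ≤ C v) ∧ PP (tau P b L) σ C X := by
  classical
  have hm : ∀ g : G, Measurable fun ω : Ω => g • ω := fun g => (hmp g).measurable
  set U : Finset G := U₀ ∪ U₀⁻¹ ∪ {1} with hUdef
  have hU1 : (1 : G) ∈ U := by
    rw [hUdef]
    exact Finset.mem_union_right _ (Finset.mem_singleton_self _)
  have hU1' : (1 : G) ∈ (U : Set G) := hU1
  have hUinv : ∀ u ∈ U, u⁻¹ ∈ U := by
    intro u hu
    rw [hUdef, Finset.mem_union, Finset.mem_union] at hu ⊢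
    rcases hu with (hu | hu) | hu
    · exact Or.inl (Or.inr (Finset.inv_mem_inv hu))
    · refine Or.inl (Or.inl ?_)
      rw [Finset.mem_inv'] at hu
      exact hu
    · rw [Finset.mem_singleton] at hu
      subst hu
      rw [inv_one]
      exact Or.inr (Finset.mem_singleton_self _)
  have hzero : ∀ g, g ∉ U → ∀ ω, m g ω = 0 := by
    intro g hg
    refine hX.zero g fun h => hg ?_
    rw [hUdef]
    exact Finset.mem_union_left _ (Finset.mem_union_left _ h)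
  -- bounds
  have hBd : ∀ (v : ι) (g : G), ∃ B : ℝ, 0 ≤ B ∧ ∀ ω, ‖σ v (m g ω)‖ ≤ B := by
    intro v g
    obtain ⟨B, hB⟩ := (((hX.fv g).map fun r => ‖σ v r‖).1).bddAbove
    refine ⟨max B 0, le_max_right _ _, fun ω => ?_⟩
    exact (hB ⟨ω, rfl⟩).trans (le_max_left _ _)
  choose Bd hBd0 hBd using hBd
  set C : ι → ℝ := fun v => ‖X v‖ + ∑ g ∈ U, Bd v g with hC
  have hsumBd : ∀ v, 0 ≤ ∑ g ∈ U, Bd v g := fun v => Finset.sum_nonneg fun g _ => hBd0 v g
  have hC0 : ∀ v, 0 ≤ C v := fun v => add_nonneg (norm_nonneg _) (hsumBd v)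
  refine ⟨C, fun v => by
    show ‖X v‖ ≤ ‖X v‖ + ∑ g ∈ U, Bd v g
    linarith [hsumBd v], ?_⟩
  intro q hq
  set N : ℕ := ∑ v, (q v).natDegree with hN
  have hNv : ∀ v, (q v).natDegree ≤ N := fun v =>
    Finset.single_le_sum (f := fun v => (q v).natDegree) (fun _ _ => Nat.zero_le _)
      (Finset.mem_univ v)
  set K : ι → ℝ := fun v => 2 * ∑ k ∈ Finset.range (N + 1), |(q v).coeff k| * ((C v) ^ 2) ^ k with hK
  have hK0 : ∀ v, 0 ≤ K v := fun v => by
    rw [hK]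
    exact mul_nonneg zero_le_two (Finset.sum_nonneg fun k _ => by positivity)
  set B : Finset G := U ^ (2 * N + 1) with hBdef
  have hB : ∀ g ∈ (U : Set G) ^ (2 * N + 1), g ∈ B := by
    intro g hg
    rw [hBdef, ← Finset.mem_coe, Finset.coe_pow]
    exact hg
  -- the integrands
  set Φ : ι → Ω → ℝ := fun v ω =>
    (⟪b 1, ev b L ω (Polynomial.aeval (star (X v) * X v) (q v)) (b 1)⟫_ℂ).re with hΦ
  have hΦfv : ∀ v, FV (Φ v) := fun v => (hX.toC v).fv_aeval hL hm (q v)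
  have hΦI : ∀ v, ∫ ω, Φ v ω ∂P = (tau P b L (Polynomial.aeval (star (X v) * X v) (q v))).re := by
    intro v
    rw [tau_apply]
    exact integral_re (ev_int P b L (Polynomial.aeval (star (X v) * X v) (q v)) (b 1) (b 1))
  -- the family of sets
  set 𝒜 : Finset (Set Ω) := (U.biUnion fun g => ((hX.fv g).1.toFinset).image fun c => m g ⁻¹' {c})
    ∪ (Finset.univ.biUnion fun v => ((hΦfv v).1.toFinset).image fun c => Φ v ⁻¹' {c}) with h𝒜
  have h𝒜m : ∀ A ∈ 𝒜, MeasurableSet A := by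
    intro A hA
    rw [h𝒜, Finset.mem_union, Finset.mem_biUnion, Finset.mem_biUnion] at hA
    rcases hA with ⟨g, -, hA⟩ | ⟨v, -, hA⟩
    · obtain ⟨c, -, rfl⟩ := Finset.mem_image.1 hA
      exact (hX.fv g).2 c
    · obtain ⟨c, -, rfl⟩ := Finset.mem_image.1 hA
      exact (hΦfv v).2 c
  have h𝒜1 : ∀ g ∈ U, ∀ ω, m g ⁻¹' {m g ω} ∈ 𝒜 := by
    intro g hg ω
    rw [h𝒜, Finset.mem_union]
    left
    exact Finset.mem_biUnion.2 ⟨g, hg, Finset.mem_image.2 ⟨m g ω,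
      (hX.fv g).1.mem_toFinset.2 ⟨ω, rfl⟩, rfl⟩⟩
  have h𝒜2 : ∀ v, ∀ c ∈ Set.range (Φ v), Φ v ⁻¹' {c} ∈ 𝒜 := by
    intro v c hc
    rw [h𝒜, Finset.mem_union]
    right
    exact Finset.mem_biUnion.2 ⟨v, Finset.mem_univ v, Finset.mem_image.2 ⟨c,
      (hΦfv v).1.mem_toFinset.2 hc, rfl⟩⟩
  -- the constants
  set D : ℝ := ∑ v, ((∑ c ∈ (hΦfv v).1.toFinset, |c|)
    + ((B.card : ℝ) ^ 2 + B.card + B.card * 𝒜.card) * K v) with hD
  have hD0 : 0 ≤ D := Finset.sum_nonneg fun v _ => by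
    have := hK0 v
    positivity
  refine le_of_forall_pos_le_add fun η hη => ?_
  obtain ⟨ε, hε, hεη⟩ : ∃ ε : ℝ, 0 < ε ∧ ε * D ≤ η := by
    refine ⟨η / (D + 1), by positivity, ?_⟩
    rw [div_mul_eq_mul_div, div_le_iff₀ (by positivity)]
    nlinarith
  obtain ⟨n, s, θ, hn, h1, h2, h3, h4⟩ := hS B 𝒜 ε h𝒜m hε
  have hn0 : (0 : ℝ) < n := by exact_mod_cast hn
  obtain ⟨bad, hbad, hbadc⟩ := card_bad s θ B U m 𝒜 ε hε.le h1 h2 h3 h𝒜1
  -- the inequality in the model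
  have hmap : ∀ v, (mdl s θ U m).map (σ v) = mdl s θ U fun g ω => σ v (m g ω) := fun v =>
    mdl_map s θ U m (σ v)
  have hOp : ∀ v, OpLe ((mdl s θ U m).map (σ v)) (C v) := by
    intro v
    rw [hmap]
    refine OpLe.mono (hsumBd v) ?_ (mdl_opLe s θ U _ (Bd v) (hBd0 v) (hBd v))
    show ∑ g ∈ U, Bd v g ≤ ‖X v‖ + ∑ g ∈ U, Bd v g
    linarith [norm_nonneg (X v)]
  have h5 := hq (Fin n) (mdl s θ U m) hOp
  have h6 : ∀ v, (Matrix.trace (Polynomial.aeval (((mdl s θ U m).map (σ v))ᴴ *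
      ((mdl s θ U m).map (σ v))) (q v))).re
      ≤ n * (tau P b L (Polynomial.aeval (star (X v) * X v) (q v))).re
        + ((∑ c ∈ (hΦfv v).1.toFinset, |c|)
          + ((B.card : ℝ) ^ 2 + B.card + B.card * 𝒜.card) * K v) * (ε * n) := by
    intro v
    have e1 := hOp v
    rw [hmap] at e1 ⊢
    have e2 := model_trace b (fun x => ev b L (θ x) (X v)) (fun x => ⟨fun i j => hX.coef' hL v _ i j,
      fun g hg ω => by rw [hzero g hg, map_zero]⟩) hUinv hU1 (C := C v) (fun x => by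
        have := ev_norm b L (θ x) (X v)
        exact this.trans (by
          show ‖X v‖ ≤ ‖X v‖ + ∑ g ∈ U, Bd v g
          linarith [hsumBd v])) (hC0 v) e1 (q v) N (hNv v) hB bad
        (fun x hx => (hbad x hx).map (σ v))
    have e3 : ∀ x, (⟪b 1, (Polynomial.aeval (star (ev b L (θ x) (X v)) * ev b L (θ x) (X v)) (q v))
        (b 1)⟫_ℂ).re = Φ v (θ x) := by
      intro x
      rw [← ev_aeval]
    rw [Finset.sum_congr rfl fun x _ => e3 x] at e2
    have e4 := avg_fv P (hΦfv v) θ ε fun c hc => h4 _ (h𝒜2 v c hc)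
    rw [hΦI] at e4
    have e5 : (bad.card : ℝ) * K v
        ≤ ((B.card : ℝ) ^ 2 + B.card + B.card * 𝒜.card) * K v * (ε * n) := by
      calc (bad.card : ℝ) * K v
          ≤ (((B.card : ℝ) ^ 2 + B.card + B.card * 𝒜.card) * (ε * n)) * K v :=
            mul_le_mul_of_nonneg_right hbadc (hK0 v)
        _ = _ := by ring
    refine e2.trans ?_
    rw [add_mul]
    linarith
  have h7 := h5.trans (Finset.sum_le_sum fun v _ => h6 v)
  rw [Finset.sum_add_distrib, ← Finset.mul_sum, ← Finset.sum_mul] at h7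
  have h8 : D * (ε * n) ≤ η * n := by
    calc D * (ε * n) = (ε * D) * n := by ring
      _ ≤ η * n := mul_le_mul_of_nonneg_right hεη hn0.le
  have h9 : 0 ≤ (n : ℝ) * (∑ v, (tau P b L (Polynomial.aeval (star (X v) * X v) (q v))).re + η) := by
    rw [mul_add]
    linarith
  exact nonneg_of_mul_nonneg_right h9 hn0

end

end Pool.Agent.TH315.SO
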