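import Pool.Agent.TH315.SO.Asm
import Pool.Agent.TH322.AC.Mat

/-!
# Sofic actions: models on finite types, products with `ℤ/d`
-/

set_option autoImplicit false
open scoped ComplexConjugate InnerProductSpace Topology ENNReal
open MeasureTheory Filter

namespace Pool.Agent.TH315.SO
open Pool.Agent.W611.RO Pool.Agent.TH322.AC

theorem ncard_congr' {V W : Type} (e : V ≃ W) (p : W → Prop) (q : V → Prop)
    (h : ∀ v, p (e v) ↔ q v) : {x | p x}.ncard = {v | q v}.ncard := by
  have h1 : {x | p x} = e '' {v | q v} := by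
    ext x
    constructor
    · intro hx
      exact ⟨e.symm x, (h _).1 (by rw [e.apply_symm_apply]; exact hx), e.apply_symm_apply x⟩
    · rintro ⟨v, hv, rfl⟩
      exact (h v).2 hv
  rw [h1, Set.ncard_image_of_injective _ e.injective]

/-- models on arbitrary finite types -/
theorem SofAct.mk' {G Ω : Type} [Group G] [MulAction G Ω] [MeasurableSpace Ω] {P : Measure Ω}
    (h : ∀ (K : Finset G) (𝒜 : Finset (Set Ω)) (ε : ℝ), (∀ A ∈ 𝒜, MeasurableSet A) → 0 < ε →
      ∃ (V : Type) (_ : Fintype V) (_ : Nonempty V) (s : G → Equiv.Perm V) (θ : V → Ω),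
      (∀ g ∈ K, ∀ h ∈ K,
        (({x | s (g * h) x ≠ s g (s h x)}.ncard : ℕ) : ℝ) ≤ ε * Fintype.card V) ∧
      (∀ g ∈ K, g ≠ 1 → (({x | s g x = x}.ncard : ℕ) : ℝ) ≤ ε * Fintype.card V) ∧
      (∀ g ∈ K, ∀ A ∈ 𝒜,
        (({x | ¬ (θ (s g x) ∈ A ↔ g • θ x ∈ A)}.ncard : ℕ) : ℝ) ≤ ε * Fintype.card V) ∧
      (∀ A ∈ 𝒜, |(({x | θ x ∈ A}.ncard : ℕ) : ℝ) - Fintype.card V * P.real A|
        ≤ ε * Fintype.card V)) : SofAct G P := by
  intro K 𝒜 ε h𝒜 hε
  obtain ⟨V, _, _, s, θ, h1, h2, h3, h4⟩ := h K 𝒜 ε h𝒜 hε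
  let e : V ≃ Fin (Fintype.card V) := Fintype.equivFin V
  refine ⟨Fintype.card V, fun g => e.permCongr (s g), fun x => θ (e.symm x), Fintype.card_pos,
    fun g hg h hh => ?_, fun g hg hg1 => ?_, fun g hg A hA => ?_, fun A hA => ?_⟩
  · rw [ncard_congr' e _ (fun v => s (g * h) v ≠ s g (s h v))]
    · exact h1 g hg h hh
    · intro v
      simp [Equiv.permCongr_apply]
  · rw [ncard_congr' e _ (fun v => s g v = v)]
    · exact h2 g hg hg1
    · intro v
      simp [Equiv.permCongr_apply]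
  · rw [ncard_congr' e _ (fun v => ¬ (θ (s g v) ∈ A ↔ g • θ v ∈ A))]
    · exact h3 g hg A hA
    · intro v
      simp [Equiv.permCongr_apply]
  · rw [ncard_congr' e _ (fun v => θ v ∈ A)]
    · exact h4 A hA
    · intro v
      simp

theorem ncard_prod {V : Type} [Finite V] (d : ℕ) (Q : V → Fin d → Prop) :
    {x : V × Fin d | Q x.1 x.2}.ncard = ∑ t, {v | Q v t}.ncard := by
  classical
  have := Fintype.ofFinite V
  have h0 : ∀ {W : Type} [Fintype W] (p : W → Prop) [DecidablePred p],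
      {x | p x}.ncard = ∑ x, if p x then 1 else 0 := by
    intro W _ p _
    have h1 : {x | p x} = ((Finset.univ.filter p : Finset W) : Set W) := by
      ext x
      simp
    rw [h1, Set.ncard_coe_finset, Finset.card_filter]
  rw [h0 fun x : V × Fin d => Q x.1 x.2, Fintype.sum_prod_type_right]
  exact Finset.sum_congr rfl fun t _ => (h0 fun v => Q v t).symm

theorem real_prod_unif {Ω : Type} [MeasurableSpace Ω] (P : Measure Ω) [IsProbabilityMeasure P]
    (d : ℕ) [NeZero d] {A : Set (Ω × Fin d)} (hA : MeasurableSet A) :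
    d * (P.prod (unif d)).real A = ∑ t, P.real {ω | (ω, t) ∈ A} := by
  have hd : (d : ℝ≥0∞) ≠ 0 := by exact_mod_cast NeZero.ne d
  have h1 : (P.prod (unif d)) A = (d : ℝ≥0∞)⁻¹ * ∑ t, P {ω | (ω, t) ∈ A} := by
    rw [Measure.prod_apply_symm hA, unif, lintegral_smul_measure, lintegral_count,
      tsum_fintype]
    rfl
  rw [Measure.real, h1, ENNReal.toReal_mul, ENNReal.toReal_inv, ENNReal.toReal_natCast,
    ENNReal.toReal_sum (fun t _ => measure_ne_top _ _), ← mul_assoc,
    mul_inv_cancel₀ (by exact_mod_cast NeZero.ne d), one_mul]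
  rfl

theorem sof_d (G Ω : Type) [Group G] [MeasurableSpace Ω] [MulAction G Ω] (d : ℕ) [NeZero d]
    (P : Measure Ω) [IsProbabilityMeasure P] (hS : SofAct G P) :
    SofAct (G × Multiplicative (Fin d)) (P.prod (unif d)) := by
  classical
  refine SofAct.mk' fun K 𝒜 ε h𝒜 hε => ?_
  obtain ⟨n, s, θ, hn, h1, h2, h3, h4⟩ := hS (K.image Prod.fst)
    (𝒜.biUnion fun A => Finset.univ.image fun t : Fin d => {ω | (ω, t) ∈ A}) ε (by
      intro B hB
      obtain ⟨A, hA, hB⟩ := Finset.mem_biUnion.1 hB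
      obtain ⟨t, -, rfl⟩ := Finset.mem_image.1 hB
      exact measurable_prodMk_right (h𝒜 A hA)) hε
  have hmem : ∀ A ∈ 𝒜, ∀ t : Fin d, {ω | (ω, t) ∈ A} ∈
      𝒜.biUnion fun A => Finset.univ.image fun t : Fin d => {ω | (ω, t) ∈ A} := fun A hA t =>
    Finset.mem_biUnion.2 ⟨A, hA, Finset.mem_image.2 ⟨t, Finset.mem_univ t, rfl⟩⟩
  haveI : Nonempty (Fin n) := ⟨⟨0, hn⟩⟩
  have hcard : (Fintype.card (Fin n × Fin d) : ℝ) = n * d := by
    rw [Fintype.card_prod, Fintype.card_fin, Fintype.card_fin]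
    push_cast
    ring
  have hsumle : ∀ f : Fin d → ℝ, (∀ t, f t ≤ ε * n) → ∑ t, f t ≤ ε * (n * d) := by
    intro f hf
    calc ∑ t, f t ≤ ∑ _t : Fin d, ε * n := Finset.sum_le_sum fun t _ => hf t
      _ = ε * (n * d) := by
        rw [Finset.sum_const, Finset.card_univ, Fintype.card_fin, nsmul_eq_mul]
        ring
  have hcount : ∀ (Q : Fin n → Fin d → Prop), (∀ t, (({v | Q v t}.ncard : ℕ) : ℝ) ≤ ε * n) →
      (({x : Fin n × Fin d | Q x.1 x.2}.ncard : ℕ) : ℝ) ≤ ε * (n * d) := by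
    intro Q hQ
    rw [ncard_prod, Nat.cast_sum]
    exact hsumle _ hQ
  refine ⟨Fin n × Fin d, inferInstance, inferInstance,
    fun g => (s g.1).prodCongr (Equiv.addRight (Multiplicative.toAdd g.2)),
    fun x => (θ x.1, x.2), fun g hg h hh => ?_, fun g hg hg1 => ?_, fun g hg A hA => ?_,
    fun A hA => ?_⟩
  · rw [hcard]
    refine le_trans (le_of_eq ?_) (hcount (fun v _ => s (g.1 * h.1) v ≠ s g.1 (s h.1 v))
      fun t => h1 _ (Finset.mem_image_of_mem _ hg) _ (Finset.mem_image_of_mem _ hh))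
    congr 2
    ext x
    obtain ⟨v, t⟩ := x
    show ((s (g.1 * h.1) v, t + Multiplicative.toAdd (g.2 * h.2)) : Fin n × Fin d) ≠
      (s g.1 (s h.1 v), t + Multiplicative.toAdd h.2 + Multiplicative.toAdd g.2) ↔ _
    have e1 : t + Multiplicative.toAdd (g.2 * h.2)
        = t + Multiplicative.toAdd h.2 + Multiplicative.toAdd g.2 := by
      rw [toAdd_mul]
      abel
    rw [e1]
    constructor
    · intro hne h5
      exact hne (by rw [h5])
    · intro hne h5
      exact hne (Prod.mk.inj h5).1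
  · rw [hcard]
    by_cases hg2 : g.2 = 1
    · have hg3 : g.1 ≠ 1 := fun h => hg1 (Prod.ext h hg2)
      refine le_trans (le_of_eq ?_) (hcount (fun v _ => s g.1 v = v)
        fun t => h2 _ (Finset.mem_image_of_mem _ hg) hg3)
      congr 2
      ext x
      obtain ⟨v, t⟩ := x
      show ((s g.1 v, t + Multiplicative.toAdd g.2) : Fin n × Fin d) = (v, t) ↔ _
      rw [hg2, toAdd_one, add_zero]
      constructor
      · intro h5
        exact (Prod.mk.inj h5).1
      · intro h5
        exact Prod.ext h5 rfl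
    · have h5 : {x : Fin n × Fin d | ((s g.1).prodCongr (Equiv.addRight
          (Multiplicative.toAdd g.2))) x = x} = ∅ := by
        ext x
        obtain ⟨v, t⟩ := x
        simp only [Set.mem_setOf_eq, Set.mem_empty_iff_false, iff_false]
        intro h6
        have h7 : t + Multiplicative.toAdd g.2 = t := congrArg Prod.snd h6
        apply hg2
        rw [add_eq_left] at h7
        exact h7
      rw [h5, Set.ncard_empty]
      push_cast
      positivity
  · rw [hcard]
    exact hcount (fun v t => ¬ ((θ (s g.1 v), t + Multiplicative.toAdd g.2) ∈ A ↔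
      (g.1 • θ v, t + Multiplicative.toAdd g.2) ∈ A))
      fun t => h3 _ (Finset.mem_image_of_mem _ hg) _ (hmem A hA (t + Multiplicative.toAdd g.2))
  · rw [hcard, ncard_prod (Q := fun v t => (θ v, t) ∈ A)]
    have e1 : (n : ℝ) * d * (P.prod (unif d)).real A = ∑ t, n * P.real {ω | (ω, t) ∈ A} := by
      rw [← Finset.mul_sum, ← real_prod_unif P d (h𝒜 A hA), mul_assoc]
    rw [e1, Nat.cast_sum, ← Finset.sum_sub_distrib]
    refine (Finset.abs_sum_le_sum_abs _ _).trans (hsumle _ fun t => ?_)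
    exact h4 {ω | (ω, t) ∈ A} (hmem A hA t)

end Pool.Agent.TH315.SO
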