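import Pool.Agent.TH315.SO.Cmp

/-!
# Traces of polynomials in the finite models
-/

set_option autoImplicit false
open scoped ComplexConjugate InnerProductSpace Topology BoundedContinuousFunction Pointwise Matrix
open MeasureTheory Filter Matrix

namespace Pool.Agent.TH315.SO
open Pool.Agent.H712R5.BO Pool.Agent.W611.RO Pool.Agent.TH322.AC

section
variable {G Ω H : Type} [Group G] [DecidableEq G] [MulAction G Ω]
  [NormedAddCommGroup H] [InnerProductSpace ℂ H] [CompleteSpace H] (b : HilbertBasis G ℂ H)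

theorem model_trace {n : ℕ} {s : G → Equiv.Perm (Fin n)} {θ : Fin n → Ω} {B U : Finset G}
    {a : G → Ω → ℂ} (T : Fin n → (H →L[ℂ] H)) (hT : ∀ x, Loc b (T x) U a (θ x))
    (hU : ∀ u ∈ U, u⁻¹ ∈ U) (hU1 : (1 : G) ∈ U) {C : ℝ} (hC : ∀ x, ‖T x‖ ≤ C) (hC0 : 0 ≤ C)
    (hOp : OpLe (mdl s θ U a) C) (q : Polynomial ℝ) (N : ℕ) (hN : q.natDegree ≤ N)
    (hB : ∀ g ∈ (U : Set G) ^ (2 * N + 1), g ∈ B) (bad : Finset (Fin n))
    (hbad : ∀ x, x ∉ bad → Good s θ B U a x) :
    (Matrix.trace (Polynomial.aeval ((mdl s θ U a)ᴴ * mdl s θ U a) q)).re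
      ≤ ∑ x, (⟪b 1, (Polynomial.aeval (star (T x) * T x) q) (b 1)⟫_ℂ).re
        + (bad.card : ℝ) * (2 * ∑ k ∈ Finset.range (N + 1), |q.coeff k| * (C ^ 2) ^ k) := by
  set A : Matrix (Fin n) (Fin n) ℂ := (mdl s θ U a)ᴴ * mdl s θ U a with hA
  set K : ℝ := ∑ k ∈ Finset.range (N + 1), |q.coeff k| * (C ^ 2) ^ k with hK
  have hK0 : 0 ≤ K := Finset.sum_nonneg fun k _ => by positivity
  have hAe : Polynomial.aeval A q = ∑ k ∈ Finset.range (N + 1), q.coeff k • A ^ k := by
    rw [Polynomial.aeval_eq_sum_range' (Nat.lt_succ_of_le hN)]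
  have hZe : ∀ x, Polynomial.aeval (star (T x) * T x) q
      = ∑ k ∈ Finset.range (N + 1), q.coeff k • (star (T x) * T x) ^ k := by
    intro x
    rw [Polynomial.aeval_eq_sum_range' (Nat.lt_succ_of_le hN)]
  have hAsv : ∀ (k : ℕ) (x : Fin n), ‖(A ^ k) x x‖ ≤ (C ^ 2) ^ k := by
    intro k x
    -- the adjoint has the same bound
    have h1 : OpLe (mdl s θ U a)ᴴ C := by
      rw [opLe_iff _ hC0]
      rw [opLe_iff _ hC0] at hOp
      intro y
      by_cases hy : ‖WithLp.toLp 2 ((mdl s θ U a)ᴴ *ᵥ y)‖ = 0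
      · rw [hy]
        positivity
      have hpos : 0 < ‖WithLp.toLp 2 ((mdl s θ U a)ᴴ *ᵥ y)‖ := lt_of_le_of_ne (norm_nonneg _) (Ne.symm hy)
      set z := (mdl s θ U a)ᴴ *ᵥ y with hz
      have h2 : ‖WithLp.toLp 2 z‖ ^ 2 ≤ ‖WithLp.toLp 2 y‖ * ‖WithLp.toLp 2 (mdl s θ U a *ᵥ z)‖ := by
        have e1 : ((‖WithLp.toLp 2 z‖ ^ 2 : ℝ) : ℂ) = star z ⬝ᵥ z := by
          rw [star_dot, EuclideanSpace.norm_sq_eq]
        have e2 : star z ⬝ᵥ z = star y ⬝ᵥ (mdl s θ U a *ᵥ z) := by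
          have e5 : star z = star y ᵥ* mdl s θ U a := by
            rw [hz, Matrix.star_mulVec, conjTranspose_conjTranspose]
          rw [e5]
          exact (Matrix.dotProduct_mulVec (star y) (mdl s θ U a) z).symm
        have e3 : star y ⬝ᵥ (mdl s θ U a *ᵥ z)
            = ⟪WithLp.toLp 2 y, WithLp.toLp 2 (mdl s θ U a *ᵥ z)⟫_ℂ := by
          rw [EuclideanSpace.inner_eq_star_dotProduct, dotProduct_comm]
        have e4 := norm_inner_le_norm (𝕜 := ℂ) (WithLp.toLp 2 y) (WithLp.toLp 2 (mdl s θ U a *ᵥ z))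
        rw [← e3, ← e2, ← e1, Complex.norm_real, Real.norm_of_nonneg (by positivity)] at e4
        exact e4
      have h3 := hOp z
      have h4 : ‖WithLp.toLp 2 z‖ ^ 2 ≤ ‖WithLp.toLp 2 y‖ * (C * ‖WithLp.toLp 2 z‖) :=
        h2.trans (mul_le_mul_of_nonneg_left h3 (norm_nonneg _))
      nlinarith
    have h2 : OpLe A (C ^ 2) := by
      rw [hA, sq]
      exact h1.mul hOp
    exact (h2.pow k).entry (by positivity) x
  have hdA : ∀ x, (Polynomial.aeval A q) x x
      = ∑ k ∈ Finset.range (N + 1), (q.coeff k : ℂ) * (A ^ k) x x := by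
    intro x
    rw [hAe, Matrix.sum_apply]
    refine Finset.sum_congr rfl fun k _ => ?_
    rw [Matrix.smul_apply, Complex.real_smul]
  have hdZ : ∀ x, ⟪b 1, (Polynomial.aeval (star (T x) * T x) q) (b 1)⟫_ℂ
      = ∑ k ∈ Finset.range (N + 1), (q.coeff k : ℂ) * ⟪b 1, ((star (T x) * T x) ^ k) (b 1)⟫_ℂ := by
    intro x
    rw [hZe, _root_.sum_apply, inner_sum]
    refine Finset.sum_congr rfl fun k _ => ?_
    rw [_root_.smul_apply, ← Complex.coe_smul, inner_smul_right]
  have hU1' : (1 : G) ∈ (U : Set G) := hU1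
  have hgood : ∀ x, x ∉ bad → (Polynomial.aeval A q) x x
      = ⟪b 1, (Polynomial.aeval (star (T x) * T x) q) (b 1)⟫_ℂ := by
    intro x hx
    rw [hdA, hdZ]
    refine Finset.sum_congr rfl fun k hk => ?_
    rw [hA, model_entry b (hbad x hx) (hT x) hU hU1 k]
    intro g hg
    rw [Finset.mem_range] at hk
    exact hB g (Set.pow_subset_pow_right hU1' (by omega) hg)
  have hbdA : ∀ x, ‖(Polynomial.aeval A q) x x‖ ≤ K := by
    intro x
    rw [hdA]
    refine (norm_sum_le _ _).trans (Finset.sum_le_sum fun k _ => ?_)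
    rw [norm_mul, Complex.norm_real, Real.norm_eq_abs]
    exact mul_le_mul_of_nonneg_left (hAsv k x) (abs_nonneg _)
  have hbdZ : ∀ x, ‖⟪b 1, (Polynomial.aeval (star (T x) * T x) q) (b 1)⟫_ℂ‖ ≤ K := by
    intro x
    rw [hdZ]
    refine (norm_sum_le _ _).trans (Finset.sum_le_sum fun k _ => ?_)
    rw [norm_mul, Complex.norm_real, Real.norm_eq_abs]
    refine mul_le_mul_of_nonneg_left ?_ (abs_nonneg _)
    have h1 : ‖((star (T x) * T x) ^ k) (b 1)‖ ≤ (C ^ 2) ^ k := by
      have h2 : ‖star (T x) * T x‖ ≤ C ^ 2 := by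
        rw [CStarRing.norm_star_mul_self, sq]
        exact mul_le_mul (hC x) (hC x) (norm_nonneg _) hC0
      have h3 : ‖(star (T x) * T x) ^ k‖ ≤ (C ^ 2) ^ k := by
        rcases Nat.eq_zero_or_pos k with hk | hk
        · subst hk
          rw [pow_zero, pow_zero]
          exact ContinuousLinearMap.norm_id_le
        · exact (norm_pow_le' _ hk).trans (pow_le_pow_left₀ (norm_nonneg _) h2 k)
      have h4 := ((star (T x) * T x) ^ k).le_opNorm (b 1)
      rw [b.orthonormal.1 1, mul_one] at h4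
      exact h4.trans h3
    refine (norm_inner_le_norm _ _).trans ?_
    rw [b.orthonormal.1 1, one_mul]
    exact h1
  rw [Matrix.trace, Complex.re_sum]
  have hterm : ∀ x, (Matrix.diag (Polynomial.aeval A q) x).re
      ≤ (⟪b 1, (Polynomial.aeval (star (T x) * T x) q) (b 1)⟫_ℂ).re
        + if x ∈ bad then 2 * K else 0 := by
    intro x
    rw [Matrix.diag_apply]
    by_cases hi : x ∈ bad
    · rw [if_pos hi]
      have h1 := (Complex.abs_re_le_norm _).trans (hbdA x)
      have h2 := (Complex.abs_re_le_norm _).trans (hbdZ x)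
      have h3 := (abs_le.1 h1).2
      have h4 := (abs_le.1 h2).1
      linarith
    · rw [if_neg hi, hgood x hi, add_zero]
  refine (Finset.sum_le_sum fun x _ => hterm x).trans ?_
  rw [Finset.sum_add_distrib]
  refine add_le_add le_rfl ?_
  rw [← Finset.sum_filter, Finset.sum_const, nsmul_eq_mul]
  refine mul_le_mul_of_nonneg_right ?_ (by linarith)
  have h6 : (Finset.univ : Finset (Fin n)).filter (fun x => x ∈ bad) ⊆ bad :=
    fun x hx => (Finset.mem_filter.1 hx).2
  exact_mod_cast Finset.card_le_card h6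

end

end Pool.Agent.TH315.SO
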